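import Pool.Agent.KS6_46.CN.DyadB

/-!
Coverings of the line by `ℵ₁` null sets.
-/

set_option autoImplicit false

open Filter Topology Set MeasureTheory Cardinal

universe u v

namespace Pool.Agent.KS6_46.CN

/-- The line is the union of at most `ℵ₁` sets of Lebesgue measure zero. -/
def NullCovering : Prop :=
  ∃ 𝒩 : Set (Set ℝ), #𝒩 ≤ ℵ₁ ∧ (∀ N ∈ 𝒩, volume N = 0) ∧ ⋃₀ 𝒩 = Set.univ

/-- Bounded functions are guessed infinitely often by the members of a family of `ℵ₁` functions. -/
def BoundedGuessing : Prop :=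
  ∀ b : ℕ → ℕ, ∃ G : Set (ℕ → ℕ), #G ≤ ℵ₁ ∧
    ∀ x : ℕ → ℕ, (∀ n, x n < b n) → ∃ g ∈ G, {n | g n = x n}.Infinite

/-- An uncountable family of compact sets of positive measure in `[0,1)` such that every real is in
only countably many members of the family. -/
def PointCountable : Prop :=
  ∃ (Λ : Type) (F : Λ → Set ℝ), ¬ Countable Λ ∧ (∀ a, IsCompact (F a)) ∧
    (∀ a, F a ⊆ Ico 0 1) ∧ (∀ a, volume (F a) ≠ 0) ∧ ∀ x, {a | x ∈ F a}.Countable

/-- The set of indices. -/
abbrev W1 : Type := (ℵ₁ : Cardinal.{0}).ord.ToType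

lemma W1_Iio (a : W1) : (Iio a).Countable := by
  have h : #(Iio a) < ℵ₁ := by simpa using Cardinal.mk_Iio_lt a
  have h2 : #(Iio a) < Order.succ ℵ₀ := by
    rw [Cardinal.succ_aleph0]
    exact h
  exact Cardinal.mk_le_aleph0_iff.mp (Order.lt_succ_iff.mp h2)

lemma W1_Iic (a : W1) : (Iic a).Countable := by
  have : Iic a = Iio a ∪ {a} := by
    ext b
    simp only [mem_Iic, mem_union, mem_Iio, mem_singleton_iff]
    exact le_iff_lt_or_eq
  rw [this]
  exact (W1_Iio a).union (countable_singleton a)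

lemma mk_W1 : #W1 = ℵ₁ := by simp [W1]

lemma W1_unc : ¬ Countable W1 := by
  intro h
  have h1 : #W1 ≤ ℵ₀ := Cardinal.mk_le_aleph0_iff.mpr h
  rw [mk_W1] at h1
  exact absurd h1 (not_le.mpr Cardinal.aleph0_lt_aleph_one)

theorem pointCountable_of_covering (h : NullCovering) : PointCountable := by
  obtain ⟨𝒩, hcard, hnull, hun⟩ := h
  have hne : Nonempty 𝒩 := by
    have : (0:ℝ) ∈ ⋃₀ 𝒩 := by rw [hun]; trivial
    obtain ⟨N, hN, _⟩ := this
    exact ⟨⟨N, hN⟩⟩
  rw [← mk_W1] at hcard
  obtain ⟨e⟩ := hcard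
  have hsurj : Function.Surjective (Function.invFun e) := Function.invFun_surjective e.injective
  set N : W1 → Set ℝ := fun b => (Function.invFun e b : 𝒩).1 with hN
  have hN0 : ∀ b, volume (N b) = 0 := fun b => hnull _ (Function.invFun e b : 𝒩).2
  have hNu : ∀ x, ∃ b, x ∈ N b := by
    intro x
    have : x ∈ ⋃₀ 𝒩 := by rw [hun]; trivial
    obtain ⟨M, hM, hx⟩ := this
    obtain ⟨b, hb⟩ := hsurj ⟨M, hM⟩
    refine ⟨b, ?_⟩
    rw [hN]
    simp only
    rw [hb]
    exact hx
  have hT : ∀ a : W1, volume (toMeasurable volume (⋃ b ∈ Iic a, N b)) = 0 := by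
    intro a
    rw [measure_toMeasurable, measure_biUnion_null_iff (W1_Iic a)]
    exact fun b _ => hN0 b
  have hK : ∀ a : W1, ∃ K, K ⊆ Ico (0:ℝ) 1 \ toMeasurable volume (⋃ b ∈ Iic a, N b) ∧
      IsCompact K ∧ 0 < volume K := by
    intro a
    have hv : volume (Ico (0:ℝ) 1 \ toMeasurable volume (⋃ b ∈ Iic a, N b)) = 1 := by
      rw [measure_sdiff_null (hT a), Real.volume_Ico]
      simp
    apply MeasurableSet.exists_lt_isCompact_of_ne_top
    · exact measurableSet_Ico.diff (measurableSet_toMeasurable _ _)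
    · rw [hv]
      exact ENNReal.one_ne_top
    · rw [hv]
      exact one_pos
  choose F hF1 hF2 hF3 using hK
  refine ⟨W1, F, W1_unc, hF2, fun a => (hF1 a).trans Set.sdiff_subset, fun a => (hF3 a).ne', ?_⟩
  intro x
  obtain ⟨b, hb⟩ := hNu x
  apply (W1_Iio b).mono
  intro a ha
  by_contra hc
  have hba : b ≤ a := not_lt.mp hc
  apply (hF1 a ha).2
  apply subset_toMeasurable
  exact mem_biUnion (show b ∈ Iic a from hba) hb

/-- Bounded guessing gives a covering by `ℵ₁` null sets, by the Borel-Cantelli lemma. -/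
theorem covering_of_guessing (h : BoundedGuessing) : NullCovering := by
  obtain ⟨G, hG, hguess⟩ := h (fun n => 2 ^ n)
  let A : (ℕ → ℕ) → Set ℝ := fun g => {x | x ∈ Ico (0:ℝ) 1 ∧ ∃ᶠ n in atTop,
    x ∈ I n (g n)}
  have hA : ∀ g, volume (A g) = 0 := by
    intro g
    have h1 : volume {x | ∃ᶠ n in atTop, x ∈ I n (g n)} = 0 := by
      apply measure_setOfPred_frequently_eq_zero
      have h2 : ∀ n, volume {x | x ∈ I n (g n)} = ENNReal.ofReal ((1 / 2 : ℝ) ^ n) := by
        intro n
        show volume (I n (g n)) = _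
        unfold I
        rw [Real.volume_Ico, len, one_div_pow]
      simp_rw [h2]
      rw [← ENNReal.ofReal_tsum_of_nonneg (fun n => by positivity) summable_geometric_two]
      exact ENNReal.ofReal_ne_top
    exact measure_mono_null (fun x hx => hx.2) h1
  let B : (ℕ → ℕ) → Set ℝ := fun g => {x | Int.fract x ∈ A g}
  have hB : ∀ g, volume (B g) = 0 := by
    intro g
    have h1 : B g ⊆ ⋃ k : ℤ, (fun x : ℝ => x + (k : ℝ)) ⁻¹' (A g) := by
      intro x hx
      refine mem_iUnion.mpr ⟨-⌊x⌋, ?_⟩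
      have h2 : Int.fract x ∈ A g := hx
      rw [← Int.self_sub_floor] at h2
      simp only [mem_preimage, Int.cast_neg, ← sub_eq_add_neg]
      exact h2
    apply measure_mono_null h1
    rw [measure_iUnion_null_iff]
    intro k
    rw [measure_preimage_add_right]
    exact hA g
  refine ⟨B '' G, Cardinal.mk_image_le.trans hG, ?_, ?_⟩
  · rintro _ ⟨g, _, rfl⟩
    exact hB g
  · apply eq_univ_of_forall
    intro x
    have hf0 : 0 ≤ Int.fract x := Int.fract_nonneg x
    have hf1 : Int.fract x < 1 := Int.fract_lt_one x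
    obtain ⟨g, hg, hinf⟩ := hguess (fun n => ⌊2 ^ n * Int.fract x⌋₊) (by
      intro n
      rw [Nat.floor_lt (by positivity)]
      push_cast
      have : (0:ℝ) < 2 ^ n := by positivity
      nlinarith)
    refine ⟨B g, ⟨g, hg, rfl⟩, ?_⟩
    refine ⟨⟨hf0, hf1⟩, ?_⟩
    rw [← Nat.cofinite_eq_atTop, Filter.frequently_cofinite_iff_infinite]
    apply hinf.mono
    intro n hn
    have hn' : g n = ⌊2 ^ n * Int.fract x⌋₊ := hn
    have h2 : (0:ℝ) < 2 ^ n := by positivity
    show Int.fract x ∈ I n (g n)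
    rw [hn']
    unfold I
    constructor
    · rw [div_le_iff₀ h2, mul_comm (Int.fract x)]
      exact Nat.floor_le (by positivity)
    · rw [lt_div_iff₀ h2, mul_comm (Int.fract x)]
      exact Nat.lt_floor_add_one _

/-- Rothberger's argument. -/
theorem covering_of_nonmeagre {Z : Set ℝ} (hZ : #Z ≤ ℵ₁) (hm : ¬ IsMeagre Z) : NullCovering := by
  let B : ℝ → Set ℝ := fun z => {x | Liouville (x - z)}
  have hB : ∀ z, volume (B z) = 0 := by
    intro z
    have h1 : B z = (fun x : ℝ => x + (-z)) ⁻¹' {x | Liouville x} := by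
      ext x
      simp [B, sub_eq_add_neg]
    rw [h1, measure_preimage_add_right]
    exact volume_setOfPred_liouville
  refine ⟨B '' Z, Cardinal.mk_image_le.trans hZ, ?_, ?_⟩
  · rintro _ ⟨z, _, rfl⟩
    exact hB z
  · apply eq_univ_of_forall
    intro x
    by_contra hcon
    apply hm
    have h1 : IsMeagre {y : ℝ | ¬ Liouville y} := by
      unfold IsMeagre
      have := eventually_residual_liouville
      filter_upwards [this] with y hy
      exact not_not.mpr hy
    have h2 : IsMeagre ((fun z : ℝ => x - z) ⁻¹' {y : ℝ | ¬ Liouville y}) :=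
      IsMeagre.preimage_of_isOpenMap (continuous_const.sub continuous_id)
        (Homeomorph.subLeft x).isOpenMap h1
    apply h2.mono
    intro z hz hL
    apply hcon
    exact ⟨B z, ⟨z, hz, rfl⟩, hL⟩

theorem covering_of_CH (h : (ℵ₁ : Cardinal.{0}) = 𝔠) : NullCovering := by
  refine ⟨Set.range (fun x : ℝ => ({x} : Set ℝ)), ?_, ?_, ?_⟩
  · rw [h, ← Cardinal.mk_real]
    exact Cardinal.mk_range_le
  · rintro _ ⟨x, rfl⟩
    exact Real.volume_singleton
  · apply eq_univ_of_forall
    intro x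
    exact ⟨{x}, ⟨x, rfl⟩, rfl⟩

end Pool.Agent.KS6_46.CN
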