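import Pool.Agent.KS6_46.CN.SchemeC

/-!
The dyadic tree: densities of sets in dyadic intervals give a scheme.
-/

set_option autoImplicit false

open Filter Topology Set

namespace Pool.Agent.KS6_46.CN

open Classical in
/-- Densities of a set in the dyadic intervals: `d m i` is the density in the interval number `i`
of level `m`, `meet m i` says that the interval meets the set. -/
structure Den where
  d : ℕ → ℕ → ℝ
  meet : ℕ → ℕ → Prop
  pos : 0 < d 0 0
  d0 : ∀ m i, 0 ≤ d m i
  d1 : ∀ m i, d m i ≤ 1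
  dz : ∀ m i, ¬ meet m i → d m i = 0
  avg : ∀ m i n, ∑ r ∈ Finset.range (2 ^ n), d (m + n) (i * 2 ^ n + r) = 2 ^ n * d m i
  lim : Tendsto (fun m => (((Finset.range (2 ^ m)).filter (fun i => meet m i)).card : ℝ) / 2 ^ m)
    atTop (𝓝 (d 0 0))

namespace Den

variable (D : Den)

open Classical in
noncomputable def eps (m : ℕ) : ℝ :=
  Real.sqrt ((((Finset.range (2 ^ m)).filter (fun i => D.meet m i)).card : ℝ) / 2 ^ m - D.d 0 0
    + (1 / 2) ^ m)

def good (m i : ℕ) : Prop := D.meet m i ∧ 1 - D.eps m ≤ D.d m i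

lemma tot (m : ℕ) : ∑ i ∈ Finset.range (2 ^ m), D.d m i = 2 ^ m * D.d 0 0 := by
  have := D.avg 0 0 m
  simpa using this

open Classical in
lemma le_meet (m i : ℕ) : D.d m i ≤ if D.meet m i then 1 else 0 := by
  split_ifs with h
  · exact D.d1 m i
  · exact (D.dz m i h).le

open Classical in
lemma eta_nonneg (m : ℕ) : 0 ≤ (((Finset.range (2 ^ m)).filter (fun i => D.meet m i)).card : ℝ)
    / 2 ^ m - D.d 0 0 := by
  rw [sub_nonneg, le_div_iff₀ (by positivity), mul_comm, ← D.tot m, Finset.card_filter]
  push_cast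
  exact Finset.sum_le_sum (fun i _ => D.le_meet m i)

lemma eps_pos (m : ℕ) : 0 < D.eps m := by
  unfold eps
  apply Real.sqrt_pos.mpr
  have h1 := D.eta_nonneg m
  have h2 : (0:ℝ) < (1/2)^m := by positivity
  linarith

lemma eps_tendsto : Tendsto D.eps atTop (𝓝 0) := by
  have h1 := (D.lim.sub_const (D.d 0 0)).add
    (tendsto_pow_atTop_nhds_zero_of_lt_one (r := (1/2:ℝ)) (by norm_num) (by norm_num))
  have h2 := (Real.continuous_sqrt.tendsto _).comp h1
  simp only [sub_self, add_zero, Real.sqrt_zero] at h2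
  exact h2

open Classical in
lemma card_bad (m : ℕ) :
    (((Finset.range (2 ^ m)).filter (fun i => D.meet m i ∧ ¬ D.good m i)).card : ℝ)
      ≤ 2 ^ m * D.eps m := by
  set A := (Finset.range (2 ^ m)).filter (fun i => D.meet m i ∧ ¬ D.good m i) with hA
  have h1 : (A.card : ℝ) * D.eps m
      ≤ ∑ i ∈ Finset.range (2^m), ((if D.meet m i then (1:ℝ) else 0) - D.d m i) := by
    calc (A.card : ℝ) * D.eps m = ∑ i ∈ A, D.eps m := by rw [Finset.sum_const, nsmul_eq_mul]
      _ ≤ ∑ i ∈ A, ((if D.meet m i then (1:ℝ) else 0) - D.d m i) := by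
        apply Finset.sum_le_sum
        intro i hi
        obtain ⟨_, h2, h3⟩ := Finset.mem_filter.mp hi
        rw [if_pos h2]
        have : ¬ (1 - D.eps m ≤ D.d m i) := fun hc => h3 ⟨h2, hc⟩
        push Not at this
        linarith
      _ ≤ _ := by
        apply Finset.sum_le_sum_of_subset_of_nonneg (Finset.filter_subset _ _)
        intro i _ _
        have := D.le_meet m i
        linarith
  have h2 : ∑ i ∈ Finset.range (2^m), ((if D.meet m i then (1:ℝ) else 0) - D.d m i)
      ≤ 2 ^ m * (D.eps m * D.eps m) := by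
    rw [Finset.sum_sub_distrib, D.tot m]
    unfold eps
    have h3 := D.eta_nonneg m
    have h4 : (0:ℝ) < (1/2)^m := by positivity
    rw [Real.mul_self_sqrt (by linarith), Finset.card_filter]
    push_cast
    have h5 : (2:ℝ)^m * (1/2)^m = 1 := by rw [← mul_pow]; norm_num
    have h6 : (2:ℝ) ^ m ≠ 0 := by positivity
    have h7 : ∀ x : ℝ, (2:ℝ)^m * (x / 2^m - D.d 0 0 + (1/2)^m) = x - 2^m * D.d 0 0 + 1 := by
      intro x
      rw [mul_add, h5, mul_sub, mul_div_cancel₀ _ h6]
    rw [h7]
    linarith
  have h3 : (A.card : ℝ) * D.eps m ≤ (2 ^ m * D.eps m) * D.eps m := by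
    rw [mul_assoc]
    exact h1.trans h2
  exact le_of_mul_le_mul_right h3 (D.eps_pos m)

lemma idx_lt {m i n r : ℕ} (hi : i < 2 ^ m) (hr : r < 2 ^ n) : i * 2 ^ n + r < 2 ^ (m + n) := by
  rw [pow_add]
  have : (i + 1) * 2 ^ n ≤ 2 ^ m * 2 ^ n := Nat.mul_le_mul_right _ hi
  linarith [Nat.add_mul i 1 (2 ^ n)]

open Classical in
lemma card_children (m i n : ℕ) (hi : i < 2 ^ m) :
    (((Finset.range (2 ^ n)).filter (fun r => ¬ D.good (m + n) (i * 2 ^ n + r))).card : ℝ)
      ≤ 2 ^ n * (1 - D.d m i) + 2 ^ (m + n) * D.eps (m + n) := by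
  have h1 : (Finset.range (2 ^ n)).filter (fun r => ¬ D.good (m + n) (i * 2 ^ n + r)) ⊆
      (Finset.range (2 ^ n)).filter (fun r => ¬ D.meet (m + n) (i * 2 ^ n + r)) ∪
      (Finset.range (2 ^ n)).filter (fun r => D.meet (m + n) (i * 2 ^ n + r) ∧
        ¬ D.good (m + n) (i * 2 ^ n + r)) := by
    intro r hr
    simp only [Finset.mem_filter, Finset.mem_union] at hr ⊢
    tauto
  have h2 := (Finset.card_le_card h1).trans (Finset.card_union_le _ _)
  have h3 : (((Finset.range (2 ^ n)).filter
      (fun r => ¬ D.meet (m + n) (i * 2 ^ n + r))).card : ℝ) ≤ 2 ^ n * (1 - D.d m i) := by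
    rw [Finset.card_filter]
    push_cast
    calc (∑ r ∈ Finset.range (2 ^ n), if ¬ D.meet (m + n) (i * 2 ^ n + r) then (1:ℝ) else 0)
        ≤ ∑ r ∈ Finset.range (2 ^ n), (1 - D.d (m + n) (i * 2 ^ n + r)) := by
          apply Finset.sum_le_sum
          intro r _
          by_cases h : D.meet (m + n) (i * 2 ^ n + r)
          · have := D.d1 (m + n) (i * 2 ^ n + r)
            rw [if_neg (not_not.mpr h)]
            linarith
          · rw [D.dz _ _ h, if_pos h]; norm_num
      _ = 2 ^ n * (1 - D.d m i) := by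
          rw [Finset.sum_sub_distrib, D.avg, Finset.sum_const, Finset.card_range, nsmul_eq_mul]
          push_cast
          ring
  have h4 : ((Finset.range (2 ^ n)).filter (fun r => D.meet (m + n) (i * 2 ^ n + r) ∧
        ¬ D.good (m + n) (i * 2 ^ n + r))).card ≤
      ((Finset.range (2 ^ (m + n))).filter
        (fun i => D.meet (m + n) i ∧ ¬ D.good (m + n) i)).card := by
    apply Finset.card_le_card_of_injOn (fun r => i * 2 ^ n + r)
    · intro r hr
      simp only [Finset.coe_filter, Finset.mem_range, Set.mem_ofPred_eq] at hr ⊢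
      exact ⟨idx_lt hi hr.1, hr.2⟩
    · intro r _ r' _ h
      simp only at h
      omega
  have h5 := D.card_bad (m + n)
  have h2' : (((Finset.range (2 ^ n)).filter
      (fun r => ¬ D.good (m + n) (i * 2 ^ n + r))).card : ℝ) ≤
      (((Finset.range (2 ^ n)).filter
      (fun r => ¬ D.meet (m + n) (i * 2 ^ n + r))).card : ℝ) +
      (((Finset.range (2 ^ n)).filter (fun r => D.meet (m + n) (i * 2 ^ n + r) ∧
        ¬ D.good (m + n) (i * 2 ^ n + r))).card : ℝ) := by exact_mod_cast h2
  have h4' : (((Finset.range (2 ^ n)).filter (fun r => D.meet (m + n) (i * 2 ^ n + r) ∧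
        ¬ D.good (m + n) (i * 2 ^ n + r))).card : ℝ) ≤
      (((Finset.range (2 ^ (m + n))).filter
        (fun i => D.meet (m + n) i ∧ ¬ D.good (m + n) i)).card : ℝ) := by exact_mod_cast h4
  linarith

lemma exists_good : ∀ᶠ m in atTop, ∃ i < 2 ^ m, D.good m i := by
  classical
  have h1 : ∀ᶠ m in atTop, D.eps m < D.d 0 0 := D.eps_tendsto.eventually_lt_const D.pos
  filter_upwards [h1] with m hm
  by_contra hcon
  push Not at hcon
  have h2 := D.card_bad m
  have h3 : (Finset.range (2 ^ m)).filter (fun i => D.meet m i ∧ ¬ D.good m i)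
      = (Finset.range (2 ^ m)).filter (fun i => D.meet m i) := by
    apply Finset.filter_congr
    intro i hi
    have := hcon i (Finset.mem_range.mp hi)
    tauto
  rw [h3] at h2
  have h4 := D.eta_nonneg m
  rw [sub_nonneg, le_div_iff₀ (by positivity)] at h4
  have h5 : (0:ℝ) < 2 ^ m := by positivity
  nlinarith

end Den

/-- The nodes: a level, an index and a finite set of earlier levels. -/
def Node : Type := {σ : ℕ × ℕ × Finset ℕ // σ.2.1 < 2 ^ σ.1 ∧ ∀ k ∈ σ.2.2, k < σ.1}

namespace Node

def child (s : Node) (n : ℕ) (r : Fin (2 ^ (n + 1))) : Node :=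
  ⟨(s.1.1 + (n + 1), s.1.2.1 * 2 ^ (n + 1) + r, insert s.1.1 s.1.2.2),
    Den.idx_lt s.2.1 r.2, by
      intro k hk
      simp only [Finset.mem_insert] at hk ⊢
      rcases hk with rfl | hk
      · omega
      · have := s.2.2 k hk
        omega⟩

/-- A node is alive if the intervals at all its recorded levels are good. -/
def al (D : Den) (s : Node) : Prop :=
  ∀ k ∈ insert s.1.1 s.1.2.2, D.good k (s.1.2.1 / 2 ^ (s.1.1 - k))

lemma al_child (D : Den) (s : Node) (n : ℕ) (r : Fin (2 ^ (n + 1))) :
    al D (child s n r) ↔ al D s ∧ D.good (s.1.1 + (n + 1)) (s.1.2.1 * 2 ^ (n + 1) + r) := by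
  obtain ⟨⟨j, i, E⟩, hi, hE⟩ := s
  simp only at hi hE
  have key : ∀ k ∈ insert j E, (i * 2 ^ (n + 1) + (r : ℕ)) / 2 ^ (j + (n + 1) - k)
      = i / 2 ^ (j - k) := by
    intro k hk
    have hkj : k ≤ j := by
      rcases Finset.mem_insert.mp hk with rfl | hk
      · exact le_refl _
      · exact (hE k hk).le
    have e1 : j + (n + 1) - k = (n + 1) + (j - k) := by omega
    have e2 : ∀ r' < 2 ^ (n + 1), (i * 2 ^ (n + 1) + r') / 2 ^ (j + (n + 1) - k)
        = i / 2 ^ (j - k) := by
      intro r' hr'
      rw [e1, Nat.pow_add 2 (n + 1) (j - k), ← Nat.div_div_eq_div_mul]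
      congr 1
      rw [Nat.add_comm, Nat.add_mul_div_right _ _ (by positivity), Nat.div_eq_of_lt hr', zero_add]
    exact e2 r r.2
  unfold al child
  simp only
  constructor
  · intro h
    refine ⟨fun k hk => ?_, ?_⟩
    · have := h k (Finset.mem_insert_of_mem hk)
      rw [key k hk] at this
      exact this
    · have := h (j + (n + 1)) (Finset.mem_insert_self _ _)
      simpa using this
  · rintro ⟨h1, h2⟩ k hk
    rcases Finset.mem_insert.mp hk with rfl | hk
    · simpa using h2
    · rw [key k hk]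
      exact h1 k hk

lemma al_self {D : Den} {s : Node} (h : al D s) : D.good s.1.1 s.1.2.1 := by
  have := h s.1.1 (Finset.mem_insert_self _ _)
  simpa using this

end Node

/-- Densities give a scheme. -/
noncomputable def sch {Λ : Type} (D : Λ → Den)
    (hcnt : ∀ U : Ultrafilter Node, (U : Filter Node) ≤ cofinite →
      {a | ∀ᶠ t in (U : Filter Node), Node.al (D a) t}.Countable) : Sch Λ Node where
  lv := fun s => s.1.1
  fin_lv := by
    intro k
    have h : ((Finset.Iic k ×ˢ Finset.Iic (2 ^ k) ×ˢ (Finset.range k).powerset :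
        Finset (ℕ × ℕ × Finset ℕ)) : Set (ℕ × ℕ × Finset ℕ)).Finite := Finset.finite_toSet _
    apply (h.preimage (f := (Subtype.val : Node → ℕ × ℕ × Finset ℕ))
      Subtype.val_injective.injOn).subset
    rintro ⟨⟨j, i, E⟩, hi, hE⟩ hs
    have hj : j ≤ k := hs
    simp only at hi hE
    simp only [Set.mem_preimage, Finset.coe_product, Set.mem_prod, Finset.mem_coe,
      Finset.mem_Iic, Finset.mem_powerset]
    refine ⟨hj, ?_, ?_⟩
    · have := Nat.pow_le_pow_right (show 0 < 2 by norm_num) hj
      omega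
    · intro x hx
      have := hE x hx
      exact Finset.mem_range.mpr (by omega)
  infinite := by
    apply Infinite.of_injective (fun m : ℕ => (⟨(m, 0, ∅), by positivity, by simp⟩ : Node))
    intro m m' h
    have := congrArg (fun s : Node => s.1.1) h
    exact this
  child := Node.child
  lv_child := by
    intro s n r
    show n < s.1.1 + (n + 1)
    omega
  lv_child' := by
    intro s n r
    show s.1.1 < s.1.1 + (n + 1)
    omega
  alive := fun a s => Node.al (D a) s
  bad := by
    classical
    intro a ε hε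
    have hlev : Tendsto (fun s : Node => s.1.1) cofinite atTop := by
      rw [tendsto_atTop]
      intro b
      have h : ((Finset.Iic b ×ˢ Finset.Iic (2 ^ b) ×ˢ (Finset.range b).powerset :
          Finset (ℕ × ℕ × Finset ℕ)) : Set (ℕ × ℕ × Finset ℕ)).Finite := Finset.finite_toSet _
      apply (h.preimage (f := (Subtype.val : Node → ℕ × ℕ × Finset ℕ))
        Subtype.val_injective.injOn).subset
      rintro ⟨⟨j, i, E⟩, hi, hE⟩ hs
      have hs' : ¬ b ≤ j := hs
      have hj : j ≤ b := by omega
      simp only at hi hE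
      simp only [Set.mem_preimage, Finset.coe_product, Set.mem_prod, Finset.mem_coe,
        Finset.mem_Iic, Finset.mem_powerset]
      refine ⟨hj, ?_, ?_⟩
      · have := Nat.pow_le_pow_right (show 0 < 2 by norm_num) hj
        omega
      · intro x hx
        have := hE x hx
        exact Finset.mem_range.mpr (by omega)
    have h1 : ∀ᶠ s : Node in cofinite, (D a).eps s.1.1 < ε / 2 :=
      ((D a).eps_tendsto.comp hlev).eventually_lt_const (by positivity)
    filter_upwards [h1] with s hs
    by_cases hal : Node.al (D a) s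
    · have h2 : Tendsto (fun n => 2 ^ s.1.1 * (D a).eps (s.1.1 + (n + 1))) atTop (𝓝 0) := by
        have h3 : Tendsto (fun n => s.1.1 + (n + 1)) atTop atTop :=
          tendsto_atTop_mono (fun n => show n ≤ s.1.1 + (n + 1) by omega) tendsto_id
        have := ((D a).eps_tendsto.comp h3).const_mul (2 ^ s.1.1)
        simpa using this
      have h3 : ∀ᶠ n in atTop, 2 ^ s.1.1 * (D a).eps (s.1.1 + (n + 1)) < ε / 2 :=
        h2.eventually_lt_const (by positivity)
      filter_upwards [h3] with n hn
      have h4 := (D a).card_children s.1.1 s.1.2.1 (n + 1) s.2.1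
      have h5 : (Finset.univ.filter (fun r : Fin (2 ^ (n + 1)) =>
          ¬ (Node.al (D a) (Node.child s n r) ↔ Node.al (D a) s))).card
          = ((Finset.range (2 ^ (n + 1))).filter
            (fun r => ¬ (D a).good (s.1.1 + (n + 1)) (s.1.2.1 * 2 ^ (n + 1) + r))).card := by
        rw [Finset.card_filter, Finset.card_filter, ← Fin.sum_univ_eq_sum_range
          (fun r => if ¬ (D a).good (s.1.1 + (n + 1)) (s.1.2.1 * 2 ^ (n + 1) + r) then 1 else 0)]
        apply Finset.sum_congr rfl
        intro r _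
        rw [Node.al_child]
        simp only [hal, true_and, iff_true]
      have h6 : ((Finset.univ.filter (fun r : Fin (2 ^ (n + 1)) =>
          ¬ (Node.al (D a) (Node.child s n r) ↔ Node.al (D a) s))).card : ℝ)
          ≤ 2 ^ (n + 1) * (1 - (D a).d s.1.1 s.1.2.1)
            + 2 ^ (s.1.1 + (n + 1)) * (D a).eps (s.1.1 + (n + 1)) := by
        rw [h5]
        exact h4
      have h7 : 1 - (D a).d s.1.1 s.1.2.1 ≤ (D a).eps s.1.1 := by
        have := (Node.al_self hal).2
        linarith
      have h8 : (0:ℝ) < 2 ^ (n + 1) := by positivity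
      have h9 : (2:ℝ) ^ (s.1.1 + (n + 1)) * (D a).eps (s.1.1 + (n + 1))
          = 2 ^ (n + 1) * (2 ^ s.1.1 * (D a).eps (s.1.1 + (n + 1))) := by
        rw [pow_add]; ring
      calc ((Finset.univ.filter (fun r : Fin (2 ^ (n + 1)) =>
          ¬ (Node.al (D a) (Node.child s n r) ↔ Node.al (D a) s))).card : ℝ)
          ≤ 2 ^ (n + 1) * (1 - (D a).d s.1.1 s.1.2.1)
            + 2 ^ (s.1.1 + (n + 1)) * (D a).eps (s.1.1 + (n + 1)) := h6
        _ ≤ 2 ^ (n + 1) * (ε / 2) + 2 ^ (n + 1) * (ε / 2) := by
            rw [h9]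
            apply add_le_add
            · exact mul_le_mul_of_nonneg_left (h7.trans hs.le) h8.le
            · exact mul_le_mul_of_nonneg_left hn.le h8.le
        _ = ε * 2 ^ (n + 1) := by ring
    · apply Filter.Eventually.of_forall
      intro n
      have h5 : (Finset.univ.filter (fun r : Fin (2 ^ (n + 1)) =>
          ¬ (Node.al (D a) (Node.child s n r) ↔ Node.al (D a) s))) = ∅ := by
        apply Finset.filter_eq_empty_iff.mpr
        intro r _ hc
        apply hc
        rw [Node.al_child]
        simp only [hal, false_and]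
      rw [h5]
      simp only [Finset.card_empty, Nat.cast_zero]
      positivity
  cnt := hcnt
  inf := by
    intro a hfin
    obtain ⟨M, hM⟩ := (hfin.image (fun s : Node => s.1.1)).bddAbove
    obtain ⟨m, hm1, i, hi, hg⟩ := ((eventually_gt_atTop M).and (D a).exists_good).exists
    have h1 : Node.al (D a) (⟨(m, i, ∅), hi, by simp⟩ : Node) := by
      intro k hk
      simp only [insert_empty_eq, Finset.mem_singleton] at hk
      subst hk
      simpa using hg
    have h2 : m ≤ M := hM ⟨_, h1, rfl⟩
    omega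

end Pool.Agent.KS6_46.CN
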