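import Pool.Agent.KS6_46.CN.DyadA

/-!
Densities of a compact subset of `[0,1)` of positive measure, and the scheme given by a family of
such sets.
-/

set_option autoImplicit false

open Filter Topology Set MeasureTheory

namespace Pool.Agent.KS6_46.CN

/-- Measure of the part of `C` in the interval `[x,y)`. -/
noncomputable def mm (C : Set ℝ) (x y : ℝ) : ℝ := (volume (C ∩ Ico x y)).toReal

lemma mm_ne_top (C : Set ℝ) (x y : ℝ) : volume (C ∩ Ico x y) ≠ ⊤ :=
  ((measure_mono inter_subset_right).trans_lt (by simp [Real.volume_Ico])).ne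

lemma mm_nonneg (C : Set ℝ) (x y : ℝ) : 0 ≤ mm C x y := ENNReal.toReal_nonneg

lemma mm_le (C : Set ℝ) {x y : ℝ} (h : x ≤ y) : mm C x y ≤ y - x := by
  unfold mm
  have h1 : volume (C ∩ Ico x y) ≤ ENNReal.ofReal (y - x) := by
    rw [← Real.volume_Ico]
    exact measure_mono inter_subset_right
  have h2 := ENNReal.toReal_mono ENNReal.ofReal_ne_top h1
  rwa [ENNReal.toReal_ofReal (by linarith)] at h2

lemma mm_full {C : Set ℝ} {x y : ℝ} (h : x ≤ y) (hs : Ico x y ⊆ C) : mm C x y = y - x := by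
  unfold mm
  rw [inter_eq_right.mpr hs, Real.volume_Ico, ENNReal.toReal_ofReal (by linarith)]

lemma mm_add {C : Set ℝ} (hC : MeasurableSet C) {x y z : ℝ} (h1 : x ≤ y) (h2 : y ≤ z) :
    mm C x y + mm C y z = mm C x z := by
  unfold mm
  rw [← ENNReal.toReal_add (mm_ne_top _ _ _) (mm_ne_top _ _ _),
    ← measure_union ?_ (hC.inter measurableSet_Ico), ← inter_union_distrib_left,
    Ico_union_Ico_eq_Ico h1 h2]
  exact (Ico_disjoint_Ico_same (α := ℝ)).mono inter_subset_right inter_subset_right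

lemma mm_sum {C : Set ℝ} (hC : MeasurableSet C) (x : ℝ) {h : ℝ} (hh : 0 ≤ h) (n : ℕ) :
    ∑ r ∈ Finset.range n, mm C (x + r * h) (x + (r + 1) * h) = mm C x (x + n * h) := by
  induction n with
  | zero => simp [mm]
  | succ n ih =>
    rw [Finset.sum_range_succ, ih, mm_add hC]
    · push_cast
      rfl
    · have : 0 ≤ (n : ℝ) * h := by positivity
      linarith
    · have : (n : ℝ) * h ≤ (n + 1) * h := by nlinarith
      linarith

/-- Dyadic sums. -/
lemma mm_dyadic {C : Set ℝ} (hC : MeasurableSet C) (m i n : ℕ) :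
    ∑ r ∈ Finset.range (2 ^ n), mm C (((i * 2 ^ n + r : ℕ) : ℝ) / 2 ^ (m + n))
      ((((i * 2 ^ n + r : ℕ) : ℝ) + 1) / 2 ^ (m + n))
      = mm C ((i : ℝ) / 2 ^ m) (((i : ℝ) + 1) / 2 ^ m) := by
  have h := mm_sum hC ((i : ℝ) / 2 ^ m) (h := 1 / 2 ^ (m + n)) (by positivity) (2 ^ n)
  have e1 : (i : ℝ) / 2 ^ m + ((2 ^ n : ℕ) : ℝ) * (1 / 2 ^ (m + n)) = ((i : ℝ) + 1) / 2 ^ m := by
    push_cast
    rw [pow_add]
    field_simp
  rw [e1] at h
  rw [← h]
  apply Finset.sum_congr rfl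
  intro r _
  have e2 : ((i * 2 ^ n + r : ℕ) : ℝ) / 2 ^ (m + n)
      = (i : ℝ) / 2 ^ m + (r : ℝ) * (1 / 2 ^ (m + n)) := by
    push_cast
    rw [pow_add]
    field_simp
  have e3 : (((i * 2 ^ n + r : ℕ) : ℝ) + 1) / 2 ^ (m + n)
      = (i : ℝ) / 2 ^ m + ((r : ℝ) + 1) * (1 / 2 ^ (m + n)) := by
    push_cast
    rw [pow_add]
    field_simp
    ring
  rw [e2, e3]

/-- The dyadic interval. -/
def I (m i : ℕ) : Set ℝ := Ico ((i : ℝ) / 2 ^ m) (((i : ℝ) + 1) / 2 ^ m)

/-- The density. -/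
noncomputable def dd (F : Set ℝ) (m i : ℕ) : ℝ :=
  2 ^ m * mm F ((i : ℝ) / 2 ^ m) (((i : ℝ) + 1) / 2 ^ m)

lemma dd_nonneg (F : Set ℝ) (m i : ℕ) : 0 ≤ dd F m i :=
  mul_nonneg (by positivity) (mm_nonneg _ _ _)

lemma len (m i : ℕ) : ((i : ℝ) + 1) / 2 ^ m - (i : ℝ) / 2 ^ m = 1 / 2 ^ m := by
  ring

lemma I_le (m i : ℕ) : (i : ℝ) / 2 ^ m ≤ ((i : ℝ) + 1) / 2 ^ m := by
  apply div_le_div_of_nonneg_right _ (by positivity)
  linarith

lemma dd_le (F : Set ℝ) (m i : ℕ) : dd F m i ≤ 1 := by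
  unfold dd
  have h1 := mm_le F (I_le m i)
  rw [len] at h1
  calc 2 ^ m * mm F ((i : ℝ) / 2 ^ m) (((i : ℝ) + 1) / 2 ^ m) ≤ 2 ^ m * (1 / 2 ^ m) :=
        mul_le_mul_of_nonneg_left h1 (by positivity)
    _ = 1 := by
        rw [mul_one_div, div_self (by positivity)]

lemma dd_zero {F : Set ℝ} {m i : ℕ} (h : ¬ (F ∩ I m i).Nonempty) : dd F m i = 0 := by
  unfold dd mm
  rw [Set.not_nonempty_iff_eq_empty] at h
  unfold I at h
  rw [h]
  simp

lemma dd_avg {F : Set ℝ} (hF : MeasurableSet F) (m i n : ℕ) :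
    ∑ r ∈ Finset.range (2 ^ n), dd F (m + n) (i * 2 ^ n + r) = 2 ^ n * dd F m i := by
  unfold dd
  rw [← Finset.mul_sum, mm_dyadic hF, pow_add]
  ring

lemma dd_top {F : Set ℝ} (hF : F ⊆ Ico 0 1) : dd F 0 0 = (volume F).toReal := by
  unfold dd mm
  simp only [pow_zero, Nat.cast_zero, zero_add, div_one, one_mul]
  rw [inter_eq_left.mpr hF]

open Classical in
lemma card_le_thick {F : Set ℝ} (hF : IsCompact F) (m : ℕ) :
    (((Finset.range (2 ^ m)).filter (fun i => (F ∩ I m i).Nonempty)).card : ℝ) / 2 ^ m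
      ≤ (volume (Metric.cthickening ((1 / 2 : ℝ) ^ m) F)).toReal := by
  set C := Metric.cthickening ((1 / 2 : ℝ) ^ m) F with hCdef
  have hC : MeasurableSet C := Metric.isClosed_cthickening.measurableSet
  have hfin : volume C ≠ ⊤ := (hF.isBounded.cthickening.measure_lt_top).ne
  have h1 : ∀ i, (F ∩ I m i).Nonempty → I m i ⊆ C := by
    rintro i ⟨y, hyF, hyI⟩ z hz
    apply Metric.mem_cthickening_of_dist_le z y _ F hyF
    rw [Real.dist_eq, abs_le]
    have h2 := len m i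
    have h3 : (1 / 2 : ℝ) ^ m = 1 / 2 ^ m := by rw [one_div_pow]
    rw [h3]
    have a1 := hyI.1
    have a2 := hyI.2
    have a3 := hz.1
    have a4 := hz.2
    constructor <;> linarith
  have h2 := mm_dyadic hC 0 0 m
  simp only [Nat.cast_zero, pow_zero, zero_mul, zero_add, div_one] at h2
  have h3 : mm C 0 1 ≤ (volume C).toReal :=
    ENNReal.toReal_mono hfin (measure_mono inter_subset_left)
  have h4 : (((Finset.range (2 ^ m)).filter (fun i => (F ∩ I m i).Nonempty)).card : ℝ) / 2 ^ m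
      ≤ ∑ r ∈ Finset.range (2 ^ m), mm C ((r : ℝ) / 2 ^ m) (((r : ℝ) + 1) / 2 ^ m) := by
    rw [Finset.card_filter]
    push_cast
    rw [Finset.sum_div]
    apply Finset.sum_le_sum
    intro i _
    split_ifs with h
    · rw [mm_full (I_le m i) (h1 i h), len]
    · rw [zero_div]
      exact mm_nonneg _ _ _
  rw [h2] at h4
  exact h4.trans h3

open Classical in
lemma meet_lim {F : Set ℝ} (hF : IsCompact F) (hs : F ⊆ Ico 0 1) :
    Tendsto (fun m => (((Finset.range (2 ^ m)).filter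
      (fun i => (F ∩ I m i).Nonempty)).card : ℝ) / 2 ^ m) atTop (𝓝 (dd F 0 0)) := by
  have hlow : ∀ m, dd F 0 0 ≤ (((Finset.range (2 ^ m)).filter
      (fun i => (F ∩ I m i).Nonempty)).card : ℝ) / 2 ^ m := by
    intro m
    have h1 := dd_avg hF.measurableSet 0 0 m
    simp only [zero_mul, zero_add] at h1
    rw [le_div_iff₀ (by positivity), mul_comm, ← h1, Finset.card_filter]
    push_cast
    apply Finset.sum_le_sum
    intro i _
    split_ifs with h
    · exact dd_le F m i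
    · exact (dd_zero h).le
  have hup : Tendsto (fun m : ℕ => (volume (Metric.cthickening ((1 / 2 : ℝ) ^ m) F)).toReal) atTop
      (𝓝 (dd F 0 0)) := by
    rw [dd_top hs]
    have h1 := tendsto_measure_cthickening_of_isCompact (μ := (volume : Measure ℝ)) hF
    have h2 : Tendsto (fun m : ℕ => (1 / 2 : ℝ) ^ m) atTop (𝓝 0) :=
      tendsto_pow_atTop_nhds_zero_of_lt_one (by norm_num) (by norm_num)
    exact (ENNReal.tendsto_toReal hF.measure_lt_top.ne).comp (h1.comp h2)
  exact tendsto_of_tendsto_of_tendsto_of_le_of_le tendsto_const_nhds hup hlow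
    (card_le_thick hF)

/-- The densities of a compact set. -/
noncomputable def den (F : Set ℝ) (hF : IsCompact F) (hs : F ⊆ Ico 0 1) (h0 : volume F ≠ 0) :
    Den where
  d := dd F
  meet := fun m i => (F ∩ I m i).Nonempty
  pos := by
    rw [dd_top hs]
    exact ENNReal.toReal_pos h0 hF.measure_lt_top.ne
  d0 := dd_nonneg F
  d1 := dd_le F
  dz := fun _ _ h => dd_zero h
  avg := dd_avg hF.measurableSet
  lim := meet_lim hF hs

/-- The position of a node. -/
noncomputable def pos (s : Node) : ℝ := (s.1.2.1 : ℝ) / 2 ^ s.1.1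

lemma pos_mem (s : Node) : pos s ∈ Icc (0:ℝ) 1 := by
  unfold pos
  constructor
  · positivity
  · rw [div_le_one (by positivity)]
    have := s.2.1.le
    exact_mod_cast this

lemma node_level : Tendsto (fun s : Node => s.1.1) cofinite atTop := by
  rw [tendsto_atTop]
  intro b
  have h : ((Finset.Iic b ×ˢ Finset.Iic (2 ^ b) ×ˢ (Finset.range b).powerset :
      Finset (ℕ × ℕ × Finset ℕ)) : Set (ℕ × ℕ × Finset ℕ)).Finite := Finset.finite_toSet _
  apply (h.preimage (f := (Subtype.val : Node → ℕ × ℕ × Finset ℕ))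
    Subtype.val_injective.injOn).subset
  rintro ⟨⟨j, i, E⟩, hi, hE⟩ hs
  have hs' : ¬ b ≤ j := hs
  have hj : j ≤ b := by omega
  simp only at hi hE
  simp only [Set.mem_preimage, Finset.coe_product, Set.mem_prod, Finset.mem_coe,
    Finset.mem_Iic, Finset.mem_powerset]
  refine ⟨hj, ?_, ?_⟩
  · have := Nat.pow_le_pow_right (show 0 < 2 by norm_num) hj
    omega
  · intro x hx
    have := hE x hx
    exact Finset.mem_range.mpr (by omega)

/-- If a node is alive for `F` along a free ultrafilter, then the limit of the positions is a point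
of `F`. -/
lemma mem_of_alive {F : Set ℝ} (hF : IsCompact F) (hs : F ⊆ Ico 0 1) (h0 : volume F ≠ 0)
    {U : Ultrafilter Node} (hU : (U : Filter Node) ≤ cofinite) {x : ℝ}
    (hx : Tendsto pos (U : Filter Node) (𝓝 x))
    (hal : ∀ᶠ t in (U : Filter Node), Node.al (den F hF hs h0) t) : x ∈ F := by
  have hlev : Tendsto (fun s : Node => (1 / 2 : ℝ) ^ s.1.1) (U : Filter Node) (𝓝 0) :=
    (tendsto_pow_atTop_nhds_zero_of_lt_one (by norm_num) (by norm_num)).comp
      (node_level.mono_left hU)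
  rw [← hF.isClosed.closure_eq, Metric.mem_closure_iff]
  intro ε hε
  have h1 : ∀ᶠ t in (U : Filter Node), dist (pos t) x < ε / 2 :=
    (Metric.tendsto_nhds.mp hx) (ε / 2) (by positivity)
  have h2 : ∀ᶠ t : Node in (U : Filter Node), (1 / 2 : ℝ) ^ t.1.1 < ε / 2 :=
    hlev.eventually_lt_const (by positivity)
  obtain ⟨t, ht1, ht2, ht3⟩ := (h1.and (h2.and hal)).exists
  obtain ⟨y, hyF, hyI⟩ := (Node.al_self ht3).1
  refine ⟨y, hyF, ?_⟩
  have h3 : |y - pos t| ≤ (1 / 2 : ℝ) ^ t.1.1 := by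
    have h3 : (1 / 2 : ℝ) ^ t.1.1 = 1 / 2 ^ t.1.1 := by rw [one_div_pow]
    rw [h3, abs_le]
    have a1 := hyI.1
    have a2 := hyI.2
    have a3 := len t.1.1 t.1.2.1
    have a4 : (0:ℝ) < 1 / 2 ^ t.1.1 := by positivity
    unfold pos
    constructor <;> linarith
  rw [Real.dist_eq] at ht1 ⊢
  have h4 : |x - y| ≤ |pos t - x| + |y - pos t| := by
    have : x - y = -((pos t - x) + (y - pos t)) := by ring
    rw [this, abs_neg]
    exact abs_add_le _ _
  linarith

/-- A point-countable family of compact sets of positive measure gives a scheme. -/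
theorem exists_sch {Λ : Type} (F : Λ → Set ℝ) (hF : ∀ a, IsCompact (F a))
    (hs : ∀ a, F a ⊆ Ico 0 1) (h0 : ∀ a, volume (F a) ≠ 0)
    (hcnt : ∀ x, {a | x ∈ F a}.Countable) : Nonempty (Sch Λ Node) := by
  refine ⟨sch (fun a => den (F a) (hF a) (hs a) (h0 a)) ?_⟩
  intro U hU
  obtain ⟨x, _, hx⟩ := (isCompact_Icc (a := (0:ℝ)) (b := 1)).ultrafilter_le_nhds (U.map pos) (by
    rw [le_principal_iff]
    exact Ultrafilter.mem_map.mpr (Filter.univ_mem' (fun s => pos_mem s)))
  apply (hcnt x).mono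
  intro a ha
  exact mem_of_alive (hF a) (hs a) (h0 a) hU hx ha

end Pool.Agent.KS6_46.CN
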