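import Mathlib

/-!
A general scheme for two compact spaces `K`, `L` such that `L` is Corson compact, `K` is separable
and not Corson compact, and `C(K)`, `C(L)` are linearly homeomorphic. The proofs follow the library
files `R_seed8/H794R2/CorB`-`CorF`, with the digit tree replaced by an abstract set of nodes.
-/

set_option autoImplicit false

open Filter Topology Set

universe u v

namespace Pool.Agent.KS6_46.CN

open Classical in
/-- The data of the scheme: nodes with levels and children, and the relation `alive`. -/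
structure Sch (Λ Node : Type) : Type where
  lv : Node → ℕ
  fin_lv : ∀ k, {t | lv t ≤ k}.Finite
  infinite : Infinite Node
  child : Node → (n : ℕ) → Fin (2 ^ (n + 1)) → Node
  lv_child : ∀ s n r, n < lv (child s n r)
  lv_child' : ∀ s n r, lv s < lv (child s n r)
  alive : Λ → Node → Prop
  bad : ∀ (a : Λ) (ε : ℝ), 0 < ε → ∀ᶠ s in cofinite, ∀ᶠ n in atTop,
    ((Finset.univ.filter (fun r : Fin (2 ^ (n + 1)) =>
      ¬ (alive a (child s n r) ↔ alive a s))).card : ℝ) ≤ ε * 2 ^ (n + 1)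
  cnt : ∀ U : Ultrafilter Node, (U : Filter Node) ≤ cofinite →
    {a | ∀ᶠ t in (U : Filter Node), alive a t}.Countable
  inf : ∀ a, {t | alive a t}.Infinite

variable {Λ Node : Type} (S : Sch Λ Node)

namespace Sch

theorem tendsto_level : Tendsto (fun t : Node => S.lv t) cofinite atTop := by
  rw [tendsto_atTop]
  intro b
  have h := S.fin_lv b
  refine (h.subset ?_)
  intro t ht
  simp only [Set.mem_compl_iff, Set.mem_ofPred_eq] at ht
  simp only [Set.mem_ofPred_eq]
  omega

/-- Average of `g` over the children of `s`. -/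
noncomputable def avg (g : Node → ℝ) (s : Node) (n : ℕ) : ℝ :=
  (∑ r : Fin (2 ^ (n + 1)), g (S.child s n r)) / 2 ^ (n + 1)

open Classical in
lemma abs_avg_sub_le {F : Finset Λ} {g : Node → ℝ} {C ε δ : ℝ} (hC : ∀ t, |g t| ≤ C)
    (hε : 0 ≤ ε) (s : Node) (n : ℕ)
    (hb : ∀ q ∈ F, ((Finset.univ.filter (fun r : Fin (2 ^ (n + 1)) =>
      ¬ (S.alive q (S.child s n r) ↔ S.alive q s))).card : ℝ) ≤ δ * 2 ^ (n + 1))
    (hg : ∀ r, (∀ q ∈ F, (S.alive q (S.child s n r) ↔ S.alive q s)) →
      |g (S.child s n r) - g s| ≤ ε) :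
    |S.avg g s n - g s| ≤ ε + 2 * C * F.card * δ := by
  have hC0 : 0 ≤ C := (abs_nonneg _).trans (hC s)
  have hcard : (0 : ℝ) < 2 ^ (n + 1) := by positivity
  have hcard' : (Fintype.card (Fin (2 ^ (n + 1))) : ℝ) = 2 ^ (n + 1) := by
    rw [Fintype.card_fin]; push_cast; rfl
  have h1 : S.avg g s n - g s =
      (∑ r : Fin (2 ^ (n + 1)), (g (S.child s n r) - g s)) / 2 ^ (n + 1) := by
    unfold avg
    rw [Finset.sum_sub_distrib, sub_div]
    congr 1
    rw [Finset.sum_const, Finset.card_univ, nsmul_eq_mul, hcard']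
    field_simp
  rw [h1, abs_div, abs_of_pos hcard, div_le_iff₀ hcard]
  have h2 : ∀ u : Fin (2 ^ (n + 1)), |g (S.child s n u) - g s| ≤
      ε + ∑ q ∈ F, (if ¬ (S.alive q (S.child s n u) ↔ S.alive q s) then 2 * C else 0) := by
    intro u
    by_cases hu : ∀ q ∈ F, (S.alive q (S.child s n u) ↔ S.alive q s)
    · have := hg u hu
      have h3 : 0 ≤ ∑ q ∈ F, (if ¬ (S.alive q (S.child s n u) ↔ S.alive q s) then 2 * C else 0) := by
        apply Finset.sum_nonneg
        intro q _
        split_ifs <;> positivity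
      linarith
    · push Not at hu
      obtain ⟨q, hq, hq'⟩ := hu
      have h3 : (if ¬ (S.alive q (S.child s n u) ↔ S.alive q s) then 2 * C else 0) ≤
          ∑ q ∈ F, (if ¬ (S.alive q (S.child s n u) ↔ S.alive q s) then 2 * C else 0) := by
        apply Finset.single_le_sum (f := fun q =>
          (if ¬ (S.alive q (S.child s n u) ↔ S.alive q s) then 2 * C else 0)) _ hq
        intro q _
        split_ifs <;> positivity
      have h4 : ¬ (S.alive q (S.child s n u) ↔ S.alive q s) := by tauto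
      rw [if_pos h4] at h3
      have h5 : |g (S.child s n u) - g s| ≤ 2 * C := by
        have := abs_sub (g (S.child s n u)) (g s)
        have a1 := hC (S.child s n u)
        have a2 := hC s
        linarith
      linarith
  calc |∑ u : Fin (2 ^ (n + 1)), (g (S.child s n u) - g s)|
      ≤ ∑ u : Fin (2 ^ (n + 1)), |g (S.child s n u) - g s| := Finset.abs_sum_le_sum_abs _ _
    _ ≤ ∑ u : Fin (2 ^ (n + 1)), (ε + ∑ q ∈ F,
        (if ¬ (S.alive q (S.child s n u) ↔ S.alive q s) then 2 * C else 0)) :=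
        Finset.sum_le_sum (fun u _ => h2 u)
    _ = 2 ^ (n + 1) * ε + ∑ q ∈ F, ∑ u : Fin (2 ^ (n + 1)),
        (if ¬ (S.alive q (S.child s n u) ↔ S.alive q s) then 2 * C else 0) := by
        rw [Finset.sum_add_distrib, Finset.sum_const, Finset.card_univ, nsmul_eq_mul,
          Finset.sum_comm, hcard']
    _ ≤ 2 ^ (n + 1) * ε + ∑ q ∈ F, (2 * C * (δ * 2 ^ (n + 1))) := by
        gcongr with q hq
        rw [← Finset.sum_filter, Finset.sum_const, nsmul_eq_mul, mul_comm]
        apply mul_le_mul_of_nonneg_left _ (by positivity)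
        exact hb q hq
    _ = (ε + 2 * C * F.card * δ) * 2 ^ (n + 1) := by
        rw [Finset.sum_const, nsmul_eq_mul]
        ring

lemma abs_avg_le {g : Node → ℝ} {C : ℝ} (s : Node) (n : ℕ)
    (hC : ∀ r : Fin (2 ^ (n + 1)), |g (S.child s n r)| ≤ C) :
    |S.avg g s n| ≤ C := by
  have hcard : (0 : ℝ) < 2 ^ (n + 1) := by positivity
  have hcard' : (Fintype.card (Fin (2 ^ (n + 1))) : ℝ) = 2 ^ (n + 1) := by
    rw [Fintype.card_fin]; push_cast; rfl
  unfold avg
  rw [abs_div, abs_of_pos hcard, div_le_iff₀ hcard]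
  calc |∑ u : Fin (2 ^ (n + 1)), g (S.child s n u)|
      ≤ ∑ u : Fin (2 ^ (n + 1)), |g (S.child s n u)| := Finset.abs_sum_le_sum_abs _ _
    _ ≤ ∑ u : Fin (2 ^ (n + 1)), C := Finset.sum_le_sum (fun u _ => hC _)
    _ = C * 2 ^ (n + 1) := by
        rw [Finset.sum_const, Finset.card_univ, nsmul_eq_mul, mul_comm, hcard']

lemma avg_add (g h : Node → ℝ) (s : Node) (n : ℕ) :
    S.avg (g + h) s n = S.avg g s n + S.avg h s n := by
  unfold avg
  simp only [Pi.add_apply]
  rw [Finset.sum_add_distrib, add_div]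

lemma avg_smul (c : ℝ) (g : Node → ℝ) (s : Node) (n : ℕ) :
    S.avg (c • g) s n = c * S.avg g s n := by
  unfold avg
  simp only [Pi.smul_apply, smul_eq_mul]
  rw [← Finset.mul_sum, mul_div_assoc]

lemma avg_tendsto_zero {g : Node → ℝ} (hg : Tendsto g cofinite (𝓝 0)) (s : Node) :
    Tendsto (S.avg g s) atTop (𝓝 0) := by
  rw [Metric.tendsto_atTop]
  intro ε hε
  have h1 : ∀ᶠ t in cofinite, |g t| < ε / 2 := by
    have := (Metric.tendsto_nhds.mp hg) (ε / 2) (by positivity)
    simpa [Real.dist_eq] using this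
  have h2 : {t : Node | ¬ |g t| < ε / 2}.Finite := h1
  obtain ⟨M, hM⟩ : ∃ M, ∀ t ∈ {t : Node | ¬ |g t| < ε / 2}, S.lv t ≤ M := by
    obtain ⟨M, hM⟩ := (h2.image (fun t => S.lv t)).bddAbove
    exact ⟨M, fun t ht => hM ⟨t, ht, rfl⟩⟩
  refine ⟨M + 1, fun j hj => ?_⟩
  rw [Real.dist_eq, sub_zero]
  have : |S.avg g s j| ≤ ε / 2 := by
    apply abs_avg_le
    intro r
    by_contra hc
    push Not at hc
    have := hM (S.child s j r) (not_lt.mpr hc.le)
    have h3 := S.lv_child s j r
    omega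
  linarith

end Sch

/-- Limit along a fixed free ultrafilter on `ℕ`. -/
noncomputable def ulim (a : ℕ → ℝ) : ℝ := limUnder (hyperfilter ℕ : Filter ℕ) a

lemma tendsto_ulim {a : ℕ → ℝ} {C : ℝ} (h : ∀ j, |a j| ≤ C) :
    Tendsto a (hyperfilter ℕ : Filter ℕ) (𝓝 (ulim a)) := by
  have hc : IsCompact (Set.Icc (-C) C) := isCompact_Icc
  have hle : ((hyperfilter ℕ).map a : Filter ℝ) ≤ 𝓟 (Set.Icc (-C) C) := by
    rw [le_principal_iff]
    exact Ultrafilter.mem_map.mpr (Filter.univ_mem' (fun j => abs_le.mp (h j)))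
  obtain ⟨x, _, hx⟩ := hc.ultrafilter_le_nhds ((hyperfilter ℕ).map a) hle
  exact tendsto_nhds_limUnder ⟨x, hx⟩

lemma ulim_eq {a : ℕ → ℝ} {x : ℝ} (h : Tendsto a (hyperfilter ℕ : Filter ℕ) (𝓝 x)) :
    ulim a = x := h.limUnder_eq

lemma ulim_abs_le {a : ℕ → ℝ} {C : ℝ} (h : ∀ j, |a j| ≤ C) : |ulim a| ≤ C := by
  have h1 := (tendsto_ulim h).abs
  exact le_of_tendsto h1 (Filter.Eventually.of_forall h)


end Pool.Agent.KS6_46.CN
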