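import Pool.Agent.KS6_46.CN.SchemeA

/-!
The two compact subsets of the cube `(Λ ⊕ Node) → Bool` and the isomorphism between the two spaces
of continuous functions (after the library files `R_seed8/H794R2/CorC`-`CorE`).
-/

set_option autoImplicit false

open Filter Topology Set

universe u v

namespace Pool.Agent.KS6_46.CN

variable {Λ Node : Type} {S : Sch Λ Node}



/-- The Cantor cube. -/
abbrev Cube (Λ Node : Type) := (Λ ⊕ Node) → Bool


open Classical in
/-- The isolated points of the first space. -/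
noncomputable def p (S : Sch Λ Node) (t : Node) : Cube Λ Node :=
  Sum.elim (fun q => decide (S.alive q t)) (fun t' => decide (t' = t))

open Classical in
/-- The isolated points of the second space. -/
noncomputable def p' (y : Cube Λ Node) (t : Node) : Cube Λ Node :=
  Sum.elim (fun q => y (Sum.inl q)) (fun t' => decide (t' = t))


/-- The common remainder. -/
def L0 (S : Sch Λ Node) : Set (Cube Λ Node) := {z | MapClusterPt z cofinite (p S)}


lemma isClosed_L0 : IsClosed (L0 S) := by
  unfold L0 MapClusterPt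
  exact isClosed_setOfPred_clusterPt

lemma p_inr (t t' : Node) : p S t (Sum.inr t') = true ↔ t' = t := by
  simp [p]

lemma p'_inr (y : Cube Λ Node) (t t' : Node) : p' y t (Sum.inr t') = true ↔ t' = t := by
  simp [p']

lemma p_inl (t : Node) (q : Λ) : p S t (Sum.inl q) = true ↔ S.alive q t := by
  simp [p]

lemma isOpen_coord (i : Λ ⊕ Node) (b : Bool) : IsOpen {z : Cube Λ Node | z i = b} :=
  (isOpen_discrete ({b} : Set Bool)).preimage
    (show Continuous (fun z : Cube Λ Node => z i) from continuous_apply i)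

lemma L0_inr {z : Cube Λ Node} (hz : z ∈ L0 S) (t : Node) : z (Sum.inr t) = false := by
  by_contra hc
  have hc' : z (Sum.inr t) = true := by simpa using hc
  have h1 : {w : Cube Λ Node | w (Sum.inr t) = true} ∈ 𝓝 z :=
    (isOpen_coord (Sum.inr t) true).mem_nhds hc'
  have h2 := (mapClusterPt_iff_frequently.mp hz) _ h1
  have h3 : {s : Node | p S s ∈ {w : Cube Λ Node | w (Sum.inr t) = true}} = {t} := by
    ext s
    simp only [Set.mem_ofPred_eq, p_inr, Set.mem_singleton_iff]
    exact eq_comm
  rw [Filter.frequently_cofinite_iff_infinite] at h2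
  apply h2
  rw [show {x | p S x ∈ {w : Cube Λ Node | w (Sum.inr t) = true}} = {t} from h3]
  exact Set.finite_singleton t

/-- General topological lemma. -/
lemma isClosed_union_range {ι Z : Type*} [TopologicalSpace Z] [T1Space Z] (f : ι → Z) {C : Set Z}
    (hC : IsClosed C) (h : ∀ z, MapClusterPt z cofinite f → z ∈ C) :
    IsClosed (C ∪ Set.range f) := by
  rw [← closure_subset_iff_isClosed, closure_union, hC.closure_eq]
  rintro z (hz | hz)
  · exact Or.inl hz
  · by_cases hzr : z ∈ Set.range f
    · exact Or.inr hzr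
    · left
      apply h
      rw [mapClusterPt_iff_frequently]
      intro s hs
      rw [Filter.frequently_cofinite_iff_infinite]
      intro hfin
      have h1 : s ∩ (f '' {x | f x ∈ s})ᶜ ∈ 𝓝 z := by
        apply Filter.inter_mem hs
        apply (hfin.image f).isClosed.isOpen_compl.mem_nhds
        rintro ⟨x, _, hx⟩
        exact hzr ⟨x, hx⟩
      obtain ⟨w, hw1, hw2⟩ := mem_closure_iff_nhds.mp hz _ h1
      obtain ⟨x, rfl⟩ := hw2
      exact hw1.2 ⟨x, hw1.1, rfl⟩

/-- First space. -/
def KK (S : Sch Λ Node) : Set (Cube Λ Node) := L0 S ∪ Set.range (p S)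

/-- Second space. -/
def LL (S : Sch Λ Node) (y : Cube Λ Node) : Set (Cube Λ Node) := L0 S ∪ Set.range (p' y)

lemma isClosed_KK : IsClosed (KK S) := isClosed_union_range _ isClosed_L0 (fun _ h => h)

lemma tendsto_p' {y : Cube Λ Node} (hy : y ∈ L0 S) : Tendsto (p' y) cofinite (𝓝 y) := by
  rw [tendsto_pi_nhds]
  rintro (q | t)
  · simp only [p', Sum.elim_inl]
    exact tendsto_const_nhds
  · rw [L0_inr hy t]
    apply tendsto_const_nhds.congr'
    have : ∀ᶠ s : Node in cofinite, s ≠ t := by
      simp [Filter.eventually_cofinite]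
    filter_upwards [this] with s hs
    simp [p', Ne.symm hs]

lemma isClosed_LL {y : Cube Λ Node} (hy : y ∈ L0 S) : IsClosed (LL S y) := by
  apply isClosed_union_range _ isClosed_L0
  intro z hz
  have : z = y := by
    by_contra hne
    have h1 := (tendsto_p' hy)
    have h2 : (𝓝 z ⊓ 𝓝 y).NeBot := by
      have h3 : ClusterPt z (map (p' y) cofinite) := hz
      have h4 : ClusterPt z (𝓝 y) := h3.mono h1
      exact h4
    exact hne (eq_of_nhds_neBot h2)
  rwa [this]

lemma L0_nonempty : (L0 S).Nonempty := by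
  have := S.infinite
  have : (cofinite : Filter Node).NeBot := inferInstance
  obtain ⟨z, hz⟩ := exists_clusterPt_of_compactSpace (map (p S) cofinite)
  exact ⟨z, hz⟩

/-- Points where the node coordinates single out at most one node. -/
def DD (Λ Node : Type) : Set (Cube Λ Node) :=
  {z | ∀ t t', z (Sum.inr t) = true → z (Sum.inr t') = true → t = t'}

lemma KK_sub : KK S ⊆ DD Λ Node := by
  rintro z (hz | ⟨s, rfl⟩) t t' h1 h2
  · rw [L0_inr hz t] at h1
    exact absurd h1 (by simp)
  · rw [p_inr] at h1 h2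
    rw [h1, h2]

lemma LL_sub (S : Sch Λ Node) (y : Cube Λ Node) : LL S y ⊆ DD Λ Node := by
  rintro z (hz | ⟨s, rfl⟩) t t' h1 h2
  · rw [L0_inr hz t] at h1
    exact absurd h1 (by simp)
  · rw [p'_inr] at h1 h2
    rw [h1, h2]

open Classical in
/-- The function equal to `r t` at the node `t` and zero on the remainder. -/
noncomputable def bumpFun (r : Node → ℝ) (z : Cube Λ Node) : ℝ :=
  if h : ∃ t, z (Sum.inr t) = true then r h.choose else 0

lemma bumpFun_node (r : Node → ℝ) {z : Cube Λ Node} (hz : z ∈ DD Λ Node) {t : Node}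
    (h : z (Sum.inr t) = true) : bumpFun r z = r t := by
  unfold bumpFun
  have h' : ∃ t, z (Sum.inr t) = true := ⟨t, h⟩
  rw [dif_pos h']
  rw [hz _ _ h'.choose_spec h]

lemma bumpFun_zero (r : Node → ℝ) {z : Cube Λ Node} (h : ∀ t, z (Sum.inr t) = false) :
    bumpFun r z = 0 := by
  unfold bumpFun
  rw [dif_neg]
  rintro ⟨t, ht⟩
  rw [h t] at ht
  exact absurd ht (by simp)

lemma continuous_bump {r : Node → ℝ} (hr : Tendsto r cofinite (𝓝 0)) {R : Set (Cube Λ Node)}
    (hS : R ⊆ DD Λ Node) : Continuous (fun z : R => bumpFun r z.1) := by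
  classical
  apply continuous_of_uniform_approx_of_continuous
  intro u hu
  obtain ⟨ε, hε, hεu⟩ := Metric.mem_uniformity_dist.mp hu
  have h1 : ∀ᶠ t in cofinite, |r t| < ε := by
    have := (Metric.tendsto_nhds.mp hr) ε hε
    simpa [Real.dist_eq] using this
  have h2 : {t : Node | ¬ |r t| < ε}.Finite := h1
  refine ⟨fun z : R => ∑ t ∈ h2.toFinset, if z.1 (Sum.inr t) = true then r t else 0, ?_, ?_⟩
  · apply continuous_finsetSum
    intro t _
    have hc : Continuous (fun z : R => z.1 (Sum.inr t)) :=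
      (show Continuous (fun z : Cube Λ Node => z (Sum.inr t)) from continuous_apply _).comp
        continuous_subtype_val
    exact (continuous_of_discreteTopology (f := fun b : Bool => if b = true then r t else 0)).comp hc
  · intro z
    apply hεu
    rw [Real.dist_eq]
    beta_reduce
    by_cases hz : ∃ t, z.1 (Sum.inr t) = true
    · obtain ⟨t, ht⟩ := hz
      rw [bumpFun_node r (hS z.2) ht]
      by_cases hm : t ∈ h2.toFinset
      · rw [Finset.sum_eq_single t]
        · rw [if_pos ht, sub_self, abs_zero]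
          exact hε
        · intro t' _ hne
          rw [if_neg]
          intro hc
          exact hne (hS z.2 _ _ hc ht)
        · intro hc
          exact absurd hm hc
      · rw [Finset.sum_eq_zero]
        · rw [sub_zero]
          have : ¬ ¬ |r t| < ε := by
            intro hc
            exact hm (h2.mem_toFinset.mpr hc)
          exact not_not.mp this
        · intro t' ht'
          rw [if_neg]
          intro hc
          apply hm
          rw [← hS z.2 _ _ hc ht]
          exact ht'
    · push Not at hz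
      have hz' : ∀ t, z.1 (Sum.inr t) = false := fun t => by simpa using hz t
      rw [bumpFun_zero r hz', Finset.sum_eq_zero]
      · simpa using hε
      · intro t _
        rw [if_neg]
        simp [hz' t]

/-- The bump as a continuous function on `S`. -/
noncomputable def bump {r : Node → ℝ} (hr : Tendsto r cofinite (𝓝 0)) {R : Set (Cube Λ Node)}
    (hS : R ⊆ DD Λ Node) : C(R, ℝ) := ⟨fun z => bumpFun r z.1, continuous_bump hr hS⟩

/-- A continuous function on a closed subset of the cube depends, up to `ε`, on finitely many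
coordinates. -/
lemma exists_finset {ι : Type*} {R : Set (ι → Bool)} (hS : IsClosed R) (g : C(R, ℝ)) {ε : ℝ}
    (hε : 0 < ε) : ∃ F : Finset ι, ∀ z z' : R, (∀ i ∈ F, z.1 i = z'.1 i) → |g z - g z'| < ε := by
  classical
  have : CompactSpace R := isCompact_iff_compactSpace.mp hS.isCompact
  have h1 : ∀ z : R, ∃ F : Finset ι, ∀ z' : R, (∀ i ∈ F, z.1 i = z'.1 i) → |g z' - g z| < ε / 2 := by
    intro z
    have hU : IsOpen {z' : R | |g z' - g z| < ε / 2} :=
      isOpen_lt (by fun_prop) continuous_const
    obtain ⟨V, hV, hVU⟩ := isOpen_induced_iff.mp hU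
    have hzV : z.1 ∈ V := by
      have : z ∈ Subtype.val ⁻¹' V := by
        rw [hVU]
        simp [hε]
      exact this
    obtain ⟨I, u, hIu, hsub⟩ := isOpen_pi_iff.mp hV z.1 hzV
    refine ⟨I, fun z' hz' => ?_⟩
    have : z' ∈ Subtype.val ⁻¹' V := by
      apply hsub
      intro i hi
      rw [← hz' i hi]
      exact (hIu i hi).2
    rw [hVU] at this
    exact this
  choose F hF using h1
  have hopen : ∀ z : R, {z' : R | ∀ i ∈ F z, z.1 i = z'.1 i} ∈ 𝓝 z := by
    intro z
    have : {z' : R | ∀ i ∈ F z, z.1 i = z'.1 i} = ⋂ i ∈ F z, {z' : R | z.1 i = z'.1 i} := by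
      ext z'
      simp
    rw [this]
    apply (Filter.biInter_finset_mem (F z)).mpr
    intro i _
    have ho : IsOpen {z' : R | z.1 i = z'.1 i} := by
      have : {z' : R | z.1 i = z'.1 i} = (fun z' : R => z'.1 i) ⁻¹' {z.1 i} := by
        ext z'
        simp [eq_comm]
      rw [this]
      exact (isOpen_discrete _).preimage
        ((show Continuous (fun z : ι → Bool => z i) from continuous_apply _).comp
          continuous_subtype_val)
    exact ho.mem_nhds rfl
  obtain ⟨T, hT⟩ := CompactSpace.elim_nhds_subcover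
    (fun z : R => {z' : R | ∀ i ∈ F z, z.1 i = z'.1 i}) hopen
  refine ⟨T.biUnion F, fun z z' hzz' => ?_⟩
  have hz : z ∈ ⋃ x ∈ T, {z' : R | ∀ i ∈ F x, x.1 i = z'.1 i} := by
    rw [hT]
    trivial
  simp only [Set.mem_iUnion] at hz
  obtain ⟨x, hxT, hx⟩ := hz
  have hx' : ∀ i ∈ F x, x.1 i = z'.1 i := by
    intro i hi
    rw [hx i hi]
    exact hzz' i (Finset.mem_biUnion.mpr ⟨x, hxT, hi⟩)
  have e1 := hF x z hx
  have e2 := hF x z' hx'
  have : g z - g z' = (g z - g x) - (g z' - g x) := by ring
  rw [this]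
  calc |(g z - g x) - (g z' - g x)| ≤ |g z - g x| + |g z' - g x| := abs_sub _ _
    _ < ε := by linarith




instance instCompactKK : CompactSpace (KK S) := isCompact_iff_compactSpace.mp isClosed_KK.isCompact

/-- A fixed point of the remainder. -/
noncomputable def y0 (S : Sch Λ Node) : Cube Λ Node := (L0_nonempty (S := S)).some

lemma y0_mem : y0 S ∈ L0 S := (L0_nonempty (S := S)).some_mem

instance instCompactLL : CompactSpace (LL S (y0 S)) :=
  isCompact_iff_compactSpace.mp (isClosed_LL y0_mem).isCompact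

/-- The isolated points as elements of the first space. -/
noncomputable def pk (S : Sch Λ Node) (t : Node) : KK S := ⟨p S t, Or.inr ⟨t, rfl⟩⟩

/-- Values at the isolated points. -/
noncomputable def hat (g : C(KK S, ℝ)) (t : Node) : ℝ := g (pk S t)

/-- The averaging operator. -/
noncomputable def P (g : C(KK S, ℝ)) (s : Node) : ℝ := ulim (S.avg (hat g) s)

lemma hat_le (g : C(KK S, ℝ)) (t : Node) : |hat g t| ≤ ‖g‖ := g.norm_coe_le_norm _

lemma avg_hat_le (g : C(KK S, ℝ)) (s : Node) (j : ℕ) : |S.avg (hat g) s j| ≤ ‖g‖ :=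
  S.abs_avg_le s j (fun _ => hat_le g _)

lemma tendsto_P (g : C(KK S, ℝ)) (s : Node) :
    Tendsto (S.avg (hat g) s) (hyperfilter ℕ : Filter ℕ) (𝓝 (P g s)) :=
  tendsto_ulim (avg_hat_le g s)

lemma P_le (g : C(KK S, ℝ)) (s : Node) : |P g s| ≤ ‖g‖ := ulim_abs_le (avg_hat_le g s)

lemma P_add (g h : C(KK S, ℝ)) (s : Node) : P (g + h) s = P g s + P h s := by
  apply ulim_eq
  have : S.avg (hat (g + h)) s = fun j => S.avg (hat g) s j + S.avg (hat h) s j := by
    funext j
    rw [← S.avg_add]
    rfl
  rw [this]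
  exact (tendsto_P g s).add (tendsto_P h s)

lemma P_smul (c : ℝ) (g : C(KK S, ℝ)) (s : Node) : P (c • g) s = c * P g s := by
  apply ulim_eq
  have : S.avg (hat (c • g)) s = fun j => c * S.avg (hat g) s j := by
    funext j
    rw [← S.avg_smul]
    rfl
  rw [this]
  exact (tendsto_P g s).const_mul c

lemma atTop_le : (hyperfilter ℕ : Filter ℕ) ≤ atTop := by
  rw [← Nat.cofinite_eq_atTop]
  exact hyperfilter_le_cofinite

/-- Functions vanishing on the remainder tend to zero along the isolated points. -/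
lemma hat_tendsto {g : C(KK S, ℝ)} (hg : ∀ z : KK S, z.1 ∈ L0 S → g z = 0) :
    Tendsto (hat g) cofinite (𝓝 0) := by
  rw [Metric.tendsto_nhds]
  intro ε hε
  by_contra hc
  have hc' : ∃ᶠ t in cofinite, ¬ dist (hat g t) 0 < ε := Filter.not_eventually.mp hc
  set A : Set Node := {t | ¬ dist (hat g t) 0 < ε} with hA
  have hne : (cofinite ⊓ 𝓟 A : Filter Node).NeBot := Filter.frequently_mem_iff_neBot.mp hc'
  obtain ⟨z, hz⟩ := exists_clusterPt_of_compactSpace (map (pk S) (cofinite ⊓ 𝓟 A))
  have hzL : z.1 ∈ L0 S := by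
    have h1 : ClusterPt z.1 (map (p S) cofinite) := by
      apply hz.map continuous_subtype_val.continuousAt
      rw [Filter.Tendsto, Filter.map_map]
      exact Filter.map_mono inf_le_left
    exact h1
  have h0 := hg z hzL
  have hcl : IsClosed {w : KK S | ε ≤ |g w|} := isClosed_le continuous_const (by fun_prop)
  have hmem : z ∈ {w : KK S | ε ≤ |g w|} := by
    apply isClosed_iff_clusterPt.mp hcl
    apply hz.mono
    rw [le_principal_iff, Filter.mem_map]
    apply Filter.mem_of_superset (Filter.mem_inf_of_right (Filter.mem_principal_self A))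
    intro t ht
    have : ¬ dist (hat g t) 0 < ε := ht
    rw [Real.dist_eq, sub_zero, not_lt] at this
    exact this
  have : ε ≤ |g z| := hmem
  rw [h0, abs_zero] at this
  linarith

/-- The averages depend only on the restriction to the remainder. -/
lemma P_eq_zero {g : C(KK S, ℝ)} (hg : ∀ z : KK S, z.1 ∈ L0 S → g z = 0) (s : Node) :
    P g s = 0 :=
  ulim_eq ((S.avg_tendsto_zero (hat_tendsto hg) s).mono_left atTop_le)

/-- Slow oscillation: `hat g - P g` tends to zero. -/
lemma hat_sub_P (g : C(KK S, ℝ)) : Tendsto (fun s => hat g s - P g s) cofinite (𝓝 0) := by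
  classical
  rw [Metric.tendsto_nhds]
  intro ε hε
  obtain ⟨F, hF⟩ := exists_finset isClosed_KK g (show (0:ℝ) < ε / 4 by positivity)
  set Fq : Finset Λ := F.toLeft with hFq
  set Ft : Finset Node := F.toRight with hFt
  set δ : ℝ := ε / (8 * (‖g‖ + 1) * (Fq.card + 1)) with hδ
  have hδ0 : 0 < δ := by positivity
  have hδ1 : 2 * ‖g‖ * Fq.card * δ ≤ ε / 4 := by
    have hn : 0 ≤ ‖g‖ := norm_nonneg g
    have hc : (0 : ℝ) ≤ Fq.card := by positivity
    rw [hδ, ← mul_div_assoc, div_le_iff₀ (by positivity)]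
    nlinarith [mul_nonneg hn hc, mul_nonneg (mul_nonneg hn hc) hε.le, mul_nonneg hn hε.le,
      mul_nonneg hc hε.le]
  have e1 : ∀ᶠ s : Node in cofinite, ∀ q ∈ Fq, ∀ᶠ n in atTop,
      ((Finset.univ.filter (fun r : Fin (2 ^ (n + 1)) =>
        ¬ (S.alive q (S.child s n r) ↔ S.alive q s))).card : ℝ) ≤ δ * 2 ^ (n + 1) := by
    rw [Filter.eventually_all_finset]
    intro q _
    filter_upwards [S.bad q δ hδ0] with s hs
    filter_upwards [hs] with n hn
    convert hn
  have e2 : ∀ᶠ s : Node in cofinite, Ft.sup (fun t => S.lv t) < S.lv s :=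
    S.tendsto_level.eventually_gt_atTop _
  filter_upwards [e1, e2] with s hs1 hs2
  have key : ∀ᶠ j in atTop, |S.avg (hat g) s j - hat g s| ≤ ε / 4 + ε / 4 := by
    have hs1' := (Filter.eventually_all_finset Fq).mpr hs1
    filter_upwards [hs1'] with j hj
    have h := S.abs_avg_sub_le (F := Fq) (g := hat g) (C := ‖g‖) (ε := ε / 4) (δ := δ) (hat_le g)
      (by positivity) s j (by
        intro q hq
        have := hj q hq
        convert this) (by
        intro u hu
        have hagree : ∀ i ∈ F, (pk S (S.child s j u)).1 i = (pk S s).1 i := by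
          rintro (q | t) hi
          · have hq : q ∈ Fq := Finset.mem_toLeft.mpr hi
            have := hu q hq
            simp only [pk, p, Sum.elim_inl]
            exact decide_eq_decide.mpr this
          · have ht : t ∈ Ft := Finset.mem_toRight.mpr hi
            have hlt : S.lv t < S.lv s :=
              lt_of_le_of_lt (Finset.le_sup (f := fun t : Node => S.lv t) ht) hs2
            have n1 : t ≠ S.child s j u := by
              intro hc
              have h3 := S.lv_child' s j u
              rw [← hc] at h3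
              omega
            have n2 : t ≠ s := by
              intro hc
              rw [hc] at hlt
              exact lt_irrefl _ hlt
            simp only [pk, p, Sum.elim_inr]
            simp [n1, n2]
        exact (hF _ _ hagree).le)
    calc |S.avg (hat g) s j - hat g s| ≤ ε / 4 + 2 * ‖g‖ * Fq.card * δ := h
      _ ≤ ε / 4 + ε / 4 := by linarith
  have hl : |P g s - hat g s| ≤ ε / 4 + ε / 4 := by
    have h1 : Tendsto (fun j => |S.avg (hat g) s j - hat g s|) (hyperfilter ℕ : Filter ℕ)
        (𝓝 |P g s - hat g s|) := ((tendsto_P g s).sub_const _).abs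
    apply le_of_tendsto h1
    exact atTop_le key
  rw [Real.dist_eq, sub_zero, abs_sub_comm]
  linarith




lemma bumpFun_add (r r' : Node → ℝ) (z : Cube Λ Node) :
    bumpFun (r + r') z = bumpFun r z + bumpFun r' z := by
  unfold bumpFun
  split_ifs <;> simp

lemma bumpFun_smul (c : ℝ) (r : Node → ℝ) (z : Cube Λ Node) :
    bumpFun (c • r) z = c * bumpFun r z := by
  unfold bumpFun
  split_ifs <;> simp

lemma bumpFun_le (S : Sch Λ Node) {r : Node → ℝ} {C : ℝ} (hC : ∀ t, |r t| ≤ C) (z : Cube Λ Node) :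
    |bumpFun r z| ≤ C := by
  unfold bumpFun
  split_ifs with h
  · exact hC _
  · rw [abs_zero]
    have := S.infinite
    exact (abs_nonneg _).trans (hC (Classical.arbitrary Node))

/-- The retraction of the second space onto the remainder. -/
def rhoFun (z : Cube Λ Node) : Cube Λ Node :=
  fun i => Sum.elim (fun q => z (Sum.inl q)) (fun _ => false) i

lemma rhoFun_eq {z : Cube Λ Node} (hz : z ∈ L0 S) : rhoFun z = z := by
  funext i
  rcases i with q | t
  · rfl
  · simp [rhoFun, L0_inr hz t]

lemma rhoFun_p' {y : Cube Λ Node} (hy : y ∈ L0 S) (t : Node) : rhoFun (p' y t) = y := by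
  funext i
  rcases i with q | t'
  · rfl
  · simp [rhoFun, L0_inr hy t']

lemma rhoFun_mem {y : Cube Λ Node} (hy : y ∈ L0 S) {z : Cube Λ Node} (hz : z ∈ LL S y) :
    rhoFun z ∈ L0 S := by
  rcases hz with hz | ⟨t, rfl⟩
  · rwa [rhoFun_eq hz]
  · rwa [rhoFun_p' hy]

/-- The retraction as a map into the first space. -/
def rho (z : LL S (y0 S)) : KK S := ⟨rhoFun z.1, Or.inl (rhoFun_mem y0_mem z.2)⟩

lemma continuous_rho : Continuous (rho (S := S)) := by
  apply Continuous.subtype_mk
  apply continuous_pi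
  rintro (q | t)
  · have h : Continuous (fun a : LL S (y0 S) => a.1 (Sum.inl q)) :=
      (show Continuous (fun z : Cube Λ Node => z (Sum.inl q)) from continuous_apply _).comp
        continuous_subtype_val
    exact h
  · exact continuous_const

/-- The operator. -/
noncomputable def T0 (g : C(KK S, ℝ)) : C(LL S (y0 S), ℝ) :=
  ⟨fun z => g (rho z) + bumpFun (fun s => hat g s - P g s) z.1,
    (g.continuous.comp continuous_rho).add (continuous_bump (hat_sub_P g) (LL_sub S _))⟩

lemma T0_apply (g : C(KK S, ℝ)) (z : LL S (y0 S)) :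
    T0 g z = g (rho z) + bumpFun (fun s => hat g s - P g s) z.1 := rfl

/-- The operator as a linear map. -/
noncomputable def T1 : C(KK S, ℝ) →ₗ[ℝ] C(LL S (y0 S), ℝ) where
  toFun := T0
  map_add' g h := by
    ext z
    simp only [T0_apply, ContinuousMap.add_apply]
    have : (fun s => hat (g + h) s - P (g + h) s)
        = (fun s => hat g s - P g s) + (fun s => hat h s - P h s) := by
      funext s
      simp only [Pi.add_apply, P_add]
      have : hat (g + h) s = hat g s + hat h s := rfl
      rw [this]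
      ring
    rw [this, bumpFun_add]
    ring
  map_smul' c g := by
    ext z
    simp only [T0_apply, ContinuousMap.smul_apply, RingHom.id_apply, smul_eq_mul]
    have : (fun s => hat (c • g) s - P (c • g) s) = c • (fun s => hat g s - P g s) := by
      funext s
      simp only [Pi.smul_apply, P_smul, smul_eq_mul]
      have : hat (c • g) s = c * hat g s := rfl
      rw [this]
      ring
    rw [this, bumpFun_smul]
    ring

/-- The operator as a continuous linear map. -/
noncomputable def T2 : C(KK S, ℝ) →L[ℝ] C(LL S (y0 S), ℝ) :=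
  T1.mkContinuous 3 (by
    intro g
    rw [ContinuousMap.norm_le _ (by positivity)]
    intro z
    have e1 : |g (rho z)| ≤ ‖g‖ := g.norm_coe_le_norm _
    have e2 : |bumpFun (fun s => hat g s - P g s) z.1| ≤ ‖g‖ + ‖g‖ := by
      apply bumpFun_le S
      intro t
      calc |hat g t - P g t| ≤ |hat g t| + |P g t| := abs_sub _ _
        _ ≤ ‖g‖ + ‖g‖ := add_le_add (hat_le g t) (P_le g t)
    calc ‖T0 g z‖ = |g (rho z) + bumpFun (fun s => hat g s - P g s) z.1| := rfl
      _ ≤ |g (rho z)| + |bumpFun (fun s => hat g s - P g s) z.1| := abs_add_le _ _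
      _ ≤ 3 * ‖g‖ := by linarith)

lemma T2_apply (g : C(KK S, ℝ)) (z : LL S (y0 S)) :
    T2 g z = g (rho z) + bumpFun (fun s => hat g s - P g s) z.1 := rfl

lemma T2_L0 (g : C(KK S, ℝ)) {z : Cube Λ Node} (hz : z ∈ L0 S) :
    T2 g ⟨z, Or.inl hz⟩ = g ⟨z, Or.inl hz⟩ := by
  rw [T2_apply, bumpFun_zero _ (fun t => L0_inr hz t), add_zero]
  congr 1
  exact Subtype.ext (rhoFun_eq hz)

lemma T2_node (g : C(KK S, ℝ)) (t : Node) :
    T2 g ⟨p' (y0 S) t, Or.inr ⟨t, rfl⟩⟩
      = g ⟨y0 S, Or.inl y0_mem⟩ + (hat g t - P g t) := by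
  rw [T2_apply, bumpFun_node _ (LL_sub S _ (Or.inr ⟨t, rfl⟩)) ((p'_inr _ _ _).mpr rfl)]
  congr 2
  exact Subtype.ext (rhoFun_p' (y0_mem (S := S)) t)

lemma T2_injective : Function.Injective (T2 (S := S)) := by
  rw [injective_iff_map_eq_zero]
  intro g hg
  have h0 : ∀ z : KK S, z.1 ∈ L0 S → g z = 0 := by
    intro z hz
    have h1 := T2_L0 g hz
    rw [hg] at h1
    exact h1.symm
  ext z
  rcases z with ⟨z, hz | ⟨t, rfl⟩⟩
  · exact h0 _ hz
  · have h1 := T2_node g t
    rw [hg, h0 ⟨y0 S, Or.inl y0_mem⟩ y0_mem, P_eq_zero h0] at h1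
    simp only [ContinuousMap.zero_apply, sub_zero, zero_add] at h1
    exact h1.symm

lemma T2_surjective : Function.Surjective (T2 (S := S)) := by
  intro h
  -- extend `h` restricted to the remainder
  let h0 : C(L0 S, ℝ) := ⟨fun z => h ⟨z.1, Or.inl z.2⟩, h.continuous.comp (by fun_prop)⟩
  obtain ⟨G, hG⟩ := ContinuousMap.exists_restrict_eq isClosed_L0 h0
  have hG' : ∀ z (hz : z ∈ L0 S), G z = h ⟨z, Or.inl hz⟩ := by
    intro z hz
    have := congrArg (fun f : C(L0 S, ℝ) => f ⟨z, hz⟩) hG
    exact this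
  let g1 : C(KK S, ℝ) := G.restrict (KK S)
  let r : Node → ℝ := fun t => (h ⟨p' (y0 S) t, Or.inr ⟨t, rfl⟩⟩ - h ⟨y0 S, Or.inl y0_mem⟩)
    - (hat g1 t - P g1 t)
  have hr : Tendsto r cofinite (𝓝 0) := by
    have e1 : Tendsto (fun t => h ⟨p' (y0 S) t, Or.inr ⟨t, rfl⟩⟩) cofinite
        (𝓝 (h ⟨y0 S, Or.inl y0_mem⟩)) := by
      apply (h.continuous.tendsto _).comp
      rw [tendsto_subtype_rng]
      exact tendsto_p' y0_mem
    have e2 := (e1.sub_const (h ⟨y0 S, Or.inl y0_mem⟩)).sub (hat_sub_P g1)
    simpa using e2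
  let b : C(KK S, ℝ) := bump hr KK_sub
  have hb0 : ∀ z : KK S, z.1 ∈ L0 S → b z = 0 := by
    intro z hz
    have : bumpFun r z.1 = 0 := bumpFun_zero r (fun t => L0_inr hz t)
    exact this
  have hbn : ∀ t, hat b t = r t := by
    intro t
    have : bumpFun r (p S t) = r t :=
      bumpFun_node r (KK_sub (Or.inr ⟨t, rfl⟩)) ((p_inr _ _).mpr rfl)
    exact this
  refine ⟨g1 + b, ?_⟩
  ext z
  rcases z with ⟨z, hz | ⟨t, rfl⟩⟩
  · rw [T2_L0 _ hz]
    simp only [ContinuousMap.add_apply]
    rw [hb0 ⟨z, Or.inl hz⟩ hz, add_zero]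
    exact hG' z hz
  · rw [T2_node]
    have e1 : hat (g1 + b) t = hat g1 t + r t := by
      rw [← hbn t]
      rfl
    have e2 : P (g1 + b) t = P g1 t := by
      rw [P_add, P_eq_zero hb0, add_zero]
    rw [e1, e2]
    simp only [ContinuousMap.add_apply]
    rw [hb0 ⟨y0 S, Or.inl y0_mem⟩ y0_mem, add_zero]
    have e3 : g1 ⟨y0 S, Or.inl y0_mem⟩ = h ⟨y0 S, Or.inl y0_mem⟩ := hG' _ y0_mem
    rw [e3]
    simp only [r]
    ring

/-- The two spaces of continuous functions are linearly homeomorphic. -/
theorem exists_equiv : Nonempty (C(KK S, ℝ) ≃L[ℝ] C(LL S (y0 S), ℝ)) :=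
  ⟨ContinuousLinearEquiv.ofBijective T2
    (LinearMap.ker_eq_bot.mpr T2_injective) (LinearMap.range_eq_top.mpr T2_surjective)⟩


end Pool.Agent.KS6_46.CN
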