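import Pool.Agent.KS6_46.CN.SchemeB

/-!
Corson compactness of the second space, failure of Corson compactness of the first (after the
library file `R_seed8/H794R2/CorF`).
-/

set_option autoImplicit false

open Filter Topology Set

universe u v

namespace Pool.Agent.KS6_46.CN

/-- A space is Corson compact if it is compact Hausdorff and homeomorphic to a subset of
`Σ(Γ) = {x ∈ ℝ^Γ : {γ | x γ ≠ 0} is countable}` (topology of the product) for some set `Γ`. -/
def IsCorsonCompact (S : Type u) [TopologicalSpace S] : Prop :=
  CompactSpace S ∧ T2Space S ∧ ∃ (Γ : Type v) (f : S → (Γ → ℝ)), IsEmbedding f ∧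
    ∀ x, {γ | f x γ ≠ 0}.Countable

variable {Λ Node : Type} {S : Sch Λ Node}

lemma Sch.countable (S : Sch Λ Node) : Countable Node := by
  rw [← Set.countable_univ_iff]
  have : (Set.univ : Set Node) = ⋃ k : ℕ, {t | S.lv t ≤ k} := by
    ext t
    simp only [Set.mem_univ, Set.mem_iUnion, true_iff]
    exact ⟨S.lv t, show S.lv t ≤ S.lv t from le_refl _⟩
  rw [this]
  exact Set.countable_iUnion (fun k => (S.fin_lv k).countable)

lemma mem_closure_of_L0 {z : KK S} (hz : z.1 ∈ L0 S) : z ∈ closure (Set.range (pk S)) := by
  obtain ⟨U, _, hU⟩ := mapClusterPt_iff_ultrafilter.mp hz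
  have h1 : Tendsto (pk S) U (𝓝 z) := by
    rw [tendsto_subtype_rng]
    exact hU
  exact mem_closure_of_tendsto h1 (Filter.Eventually.of_forall (fun t => ⟨t, rfl⟩))

lemma dense_pk : Dense (Set.range (pk S)) := by
  rintro ⟨z, hz | ⟨t, rfl⟩⟩
  · exact mem_closure_of_L0 hz
  · exact subset_closure ⟨t, rfl⟩

lemma L0_countable {z : Cube Λ Node} (hz : z ∈ L0 S) :
    {q : Λ | z (Sum.inl q) = true}.Countable := by
  obtain ⟨U, hUc, hU⟩ := mapClusterPt_iff_ultrafilter.mp hz
  apply (S.cnt U hUc).mono
  intro q hq
  have hq' : z (Sum.inl q) = true := hq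
  have h2 : Tendsto (fun t => p S t (Sum.inl q)) U (𝓝 (z (Sum.inl q))) :=
    (tendsto_pi_nhds.mp hU) (Sum.inl q)
  rw [hq'] at h2
  have h3 : ∀ᶠ t in (U : Filter Node), p S t (Sum.inl q) = true :=
    h2.eventually (show ∀ᶠ b in 𝓝 true, b = true by simp)
  show ∀ᶠ t in (U : Filter Node), S.alive q t
  filter_upwards [h3] with t ht
  exact (p_inl t q).mp ht

lemma countable_supp (S : Sch Λ Node) {z : Cube Λ Node}
    (h : {q : Λ | z (Sum.inl q) = true}.Countable) :
    {i | z i = true}.Countable := by
  have := S.countable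
  have : {i | z i = true} ⊆ (Sum.inl '' {q : Λ | z (Sum.inl q) = true}) ∪ Set.range Sum.inr := by
    rintro (q | t) hi
    · exact Or.inl ⟨q, hi, rfl⟩
    · exact Or.inr ⟨t, rfl⟩
  exact ((h.image _).union (Set.countable_range _)).mono this

/-- Compact spaces which embed in the cube with countable supports are Corson compact. -/
lemma isCorson_of_inj {ι X : Type} [TopologicalSpace X] [CompactSpace X] [T2Space X]
    (g : X → (ι → Bool)) (hg : Continuous g) (hinj : Function.Injective g)
    (hsupp : ∀ x, {i | g x i = true}.Countable) : IsCorsonCompact.{0, 0} X := by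
  classical
  refine ⟨inferInstance, inferInstance, ι, fun z i => if g z i = true then 1 else 0, ?_, ?_⟩
  · apply IsClosedEmbedding.isEmbedding
    apply Continuous.isClosedEmbedding
    · apply continuous_pi
      intro i
      exact (continuous_of_discreteTopology
        (f := fun b : Bool => if b = true then (1 : ℝ) else 0)).comp
        ((continuous_apply i).comp hg)
    · intro z z' h
      apply hinj
      funext i
      have := congrFun h i
      simp only at this
      by_cases h1 : g z i = true <;> by_cases h2 : g z' i = true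
      · rw [h1, h2]
      · simp [h1, h2] at this
      · simp [h1, h2] at this
      · have e1 : g z i = false := by simpa using h1
        have e2 : g z' i = false := by simpa using h2
        rw [e1, e2]
  · intro z
    apply (hsupp z).mono
    intro i hi
    by_contra hc
    apply hi
    have : ¬ (g z i = true) := hc
    simp [this]

lemma isCorson_LL : IsCorsonCompact.{0, 0} (LL S (y0 S)) := by
  apply isCorson_of_inj (fun z : LL S (y0 S) => z.1) continuous_subtype_val
    Subtype.val_injective
  rintro ⟨z, hz⟩
  apply countable_supp S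
  rcases hz with hz | ⟨t, rfl⟩
  · exact L0_countable hz
  · have h2 : {q : Λ | y0 S (Sum.inl q) = true}.Countable := L0_countable y0_mem
    exact h2

lemma isOpen_pk (t : Node) : IsOpen ({pk S t} : Set (KK S)) := by
  have h : ({pk S t} : Set (KK S)) = {z : KK S | z.1 (Sum.inr t) = true} := by
    ext z
    simp only [Set.mem_singleton_iff, Set.mem_ofPred_eq]
    constructor
    · rintro rfl
      exact (p_inr (S := S) t t).mpr rfl
    · intro hz
      rcases z with ⟨z, hz' | ⟨s, rfl⟩⟩
      · have := L0_inr hz' t
        simp only at hz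
        rw [this] at hz
        exact absurd hz (by simp)
      · have := (p_inr (S := S) s t).mp hz
        subst this
        rfl
  rw [h]
  exact (isOpen_coord (Sum.inr t) true).preimage continuous_subtype_val

lemma isCorson_rem : IsCorsonCompact.{0, 0} ((Set.range (pk S))ᶜ : Set (KK S)) := by
  have hcl : IsClosed ((Set.range (pk S))ᶜ : Set (KK S)) := by
    rw [isClosed_compl_iff]
    have : Set.range (pk S) = ⋃ t, {pk S t} := by
      ext z
      simp [eq_comm]
    rw [this]
    exact isOpen_iUnion isOpen_pk
  have : CompactSpace ((Set.range (pk S))ᶜ : Set (KK S)) :=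
    isCompact_iff_compactSpace.mp hcl.isCompact
  apply isCorson_of_inj (fun z : ((Set.range (pk S))ᶜ : Set (KK S)) => z.1.1)
    (continuous_subtype_val.comp continuous_subtype_val)
    (Subtype.val_injective.comp Subtype.val_injective)
  rintro ⟨⟨z, hz | ⟨t, rfl⟩⟩, hz'⟩
  · exact countable_supp S (L0_countable hz)
  · exact absurd ⟨t, rfl⟩ hz'

/-- A point of the remainder with a prescribed coordinate equal to `true`. -/
lemma exists_L0 (S : Sch Λ Node) (a : Λ) : ∃ z : KK S, z.1 ∈ L0 S ∧ z.1 (Sum.inl a) = true := by
  set A : Set Node := {t | S.alive a t} with hA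
  have hne : (cofinite ⊓ 𝓟 A : Filter Node).NeBot := by
    apply Filter.frequently_mem_iff_neBot.mp
    rw [Filter.frequently_cofinite_iff_infinite]
    exact S.inf a
  obtain ⟨z, hz⟩ := exists_clusterPt_of_compactSpace (map (pk S) (cofinite ⊓ 𝓟 A))
  have hzL : z.1 ∈ L0 S := by
    have h1 : ClusterPt z.1 (map (p S) cofinite) := by
      apply hz.map continuous_subtype_val.continuousAt
      rw [Filter.Tendsto, Filter.map_map]
      exact Filter.map_mono inf_le_left
    exact h1
  refine ⟨z, hzL, ?_⟩
  have hcl : IsClosed {w : KK S | w.1 (Sum.inl a) = true} :=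
    isClosed_eq ((show Continuous (fun z : Cube Λ Node => z (Sum.inl a)) from
      continuous_apply _).comp continuous_subtype_val) continuous_const
  have hmem : z ∈ {w : KK S | w.1 (Sum.inl a) = true} := by
    apply isClosed_iff_clusterPt.mp hcl
    apply hz.mono
    rw [le_principal_iff, Filter.mem_map]
    apply Filter.mem_of_superset (Filter.mem_inf_of_right (Filter.mem_principal_self A))
    intro t ht
    exact (p_inl t a).mpr ht
  exact hmem

lemma not_isCorson_KK (hΛ : ¬ Countable Λ) : ¬ IsCorsonCompact.{0, v} (KK S) := by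
  rintro ⟨_, _, Γ, f, hf, hsupp⟩
  have := S.countable
  set Γ0 : Set Γ := ⋃ t : Node, {γ | f (pk S t) γ ≠ 0} with hΓ0
  have hcount : Γ0.Countable := Set.countable_iUnion (fun t => hsupp _)
  have hout : ∀ z : KK S, ∀ γ, γ ∉ Γ0 → f z γ = 0 := by
    intro z γ hγ
    have hcl : IsClosed {w : KK S | f w γ = 0} :=
      isClosed_eq ((continuous_apply γ).comp hf.continuous) continuous_const
    have hsub : Set.range (pk S) ⊆ {w : KK S | f w γ = 0} := by
      rintro _ ⟨t, rfl⟩
      by_contra hc
      exact hγ (Set.mem_iUnion.mpr ⟨t, hc⟩)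
    exact closure_minimal hsub hcl (dense_pk z)
  let f0 : KK S → (Γ0 → ℝ) := fun z γ => f z γ.1
  have hf0c : Continuous f0 := continuous_pi (fun γ => (continuous_apply γ.1).comp hf.continuous)
  have hf0i : Function.Injective f0 := by
    intro z z' h
    apply hf.injective
    funext γ
    by_cases hγ : γ ∈ Γ0
    · exact congrFun h ⟨γ, hγ⟩
    · rw [hout z γ hγ, hout z' γ hγ]
  have hemb : IsEmbedding f0 := (hf0c.isClosedEmbedding hf0i).isEmbedding
  have : Countable Γ0 := hcount.to_subtype
  have hsc : SecondCountableTopology (KK S) := hemb.secondCountableTopology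
  have hcl : Countable (TopologicalSpace.Clopens (KK S)) :=
    TopologicalSpace.Clopens.countable_iff_secondCountable.mpr hsc
  let W : Λ → TopologicalSpace.Clopens (KK S) := fun q =>
    ⟨(fun z : KK S => z.1 (Sum.inl q)) ⁻¹' {true},
      (isClopen_discrete _).preimage
        ((show Continuous (fun z : Cube Λ Node => z (Sum.inl q)) from continuous_apply _).comp
          continuous_subtype_val)⟩
  obtain ⟨c, hc⟩ : ∃ c, ¬ {a | W a = c}.Countable := by
    by_contra hcon
    push Not at hcon
    apply hΛ
    rw [← Set.countable_univ_iff]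
    have : (Set.univ : Set Λ) = ⋃ c, {a | W a = c} := by
      ext a
      simp
    rw [this]
    exact Set.countable_iUnion hcon
  have hne : {a | W a = c}.Nonempty := by
    by_contra hcon
    rw [Set.not_nonempty_iff_eq_empty] at hcon
    rw [hcon] at hc
    exact hc Set.countable_empty
  obtain ⟨a, ha⟩ := hne
  obtain ⟨z, hz, hza⟩ := exists_L0 S a
  apply hc
  apply (L0_countable hz).mono
  intro a' ha'
  have e1 : W a = c := ha
  have e2 : W a' = c := ha'
  have h1 : z ∈ (W a : Set (KK S)) := hza
  rw [e1, ← e2] at h1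
  exact h1

/-- Main construction. -/
theorem main (S : Sch Λ Node) (hΛ : ¬ Countable Λ) :
    ∃ (K L : Type) (_ : TopologicalSpace K) (_ : TopologicalSpace L)
      (_ : CompactSpace K) (_ : T2Space K) (_ : CompactSpace L) (_ : T2Space L),
      IsCorsonCompact.{0, 0} L ∧ ¬ IsCorsonCompact.{0, v} K ∧
      TotallyDisconnectedSpace K ∧ TotallyDisconnectedSpace L ∧
      (∃ D : Set K, D.Countable ∧ Dense D ∧ (∀ d ∈ D, IsOpen ({d} : Set K)) ∧
        IsCorsonCompact.{0, 0} (Dᶜ : Set K)) ∧
      TopologicalSpace.SeparableSpace K ∧ Nonempty (C(K, ℝ) ≃L[ℝ] C(L, ℝ)) := by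
  have := S.countable
  refine ⟨KK S, LL S (y0 S), inferInstance, inferInstance, inferInstance, inferInstance,
    inferInstance, inferInstance, isCorson_LL, not_isCorson_KK hΛ, inferInstance, inferInstance,
    ⟨Set.range (pk S), Set.countable_range _, dense_pk, ?_, isCorson_rem⟩, ?_, exists_equiv⟩
  · rintro _ ⟨t, rfl⟩
    exact isOpen_pk t
  · exact ⟨⟨Set.range (pk S), Set.countable_range _, dense_pk⟩⟩

end Pool.Agent.KS6_46.CN
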